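import Mathlib

/-!
# The numerical value of the factor
-/

set_option autoImplicit false

namespace Pool.Agent.PlunTwo

open Real

theorem half_bounds : (0.7131 : ℝ) ≤ (1 / 2 : ℝ) ^ (20 / 41 : ℝ) ∧
    (1 / 2 : ℝ) ^ (20 / 41 : ℝ) ≤ 0.7132 := by
  set u : ℝ := (1 / 2 : ℝ) ^ (20 / 41 : ℝ) with hu
  have hu0 : 0 ≤ u := rpow_nonneg (by norm_num) _
  have h41 : u ^ 41 = (1 / 2) ^ 20 := by
    rw [hu, ← rpow_natCast, ← rpow_mul (by norm_num), ← rpow_natCast]
    norm_num
  constructor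
  · by_contra h
    push Not at h
    have := pow_lt_pow_left₀ h hu0 (n := 41) (by norm_num)
    rw [h41] at this
    norm_num at this
  · by_contra h
    push Not at h
    have := pow_lt_pow_left₀ h (by norm_num) (n := 41) (by norm_num)
    rw [h41] at this
    norm_num at this

theorem threehalf_bounds : (1.2187 : ℝ) ≤ (3 / 2 : ℝ) ^ (20 / 41 : ℝ) ∧
    (3 / 2 : ℝ) ^ (20 / 41 : ℝ) ≤ 1.2188 := by
  set u : ℝ := (3 / 2 : ℝ) ^ (20 / 41 : ℝ) with hu
  have hu0 : 0 ≤ u := rpow_nonneg (by norm_num) _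
  have h41 : u ^ 41 = (3 / 2) ^ 20 := by
    rw [hu, ← rpow_natCast, ← rpow_mul (by norm_num), ← rpow_natCast]
    norm_num
  constructor
  · by_contra h
    push Not at h
    have := pow_lt_pow_left₀ h hu0 (n := 41) (by norm_num)
    rw [h41] at this
    norm_num at this
  · by_contra h
    push Not at h
    have := pow_lt_pow_left₀ h (by norm_num) (n := 41) (by norm_num)
    rw [h41] at this
    norm_num at this

theorem log_bounds : 31 / 53 * log 2 ≤ log (3 / 2) ∧ log (3 / 2) ≤ 24 / 41 * log 2 := by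
  constructor
  · have h : log ((2 : ℝ) ^ 31) ≤ log ((3 / 2 : ℝ) ^ 53) :=
      log_le_log (by norm_num) (by norm_num)
    rw [log_pow, log_pow] at h
    push_cast at h
    linarith
  · have h : log ((3 / 2 : ℝ) ^ 41) ≤ log ((2 : ℝ) ^ 24) :=
      log_le_log (by norm_num) (by norm_num)
    rw [log_pow, log_pow] at h
    push_cast at h
    linarith

theorem half_sum_ge {θ : ℝ} (h0 : 0 ≤ θ) (h1 : θ ≤ 1) :
    (0.965 : ℝ) ≤ ((1 / 2 : ℝ) ^ θ + (3 / 2 : ℝ) ^ θ) / 2 := by
  obtain ⟨u1, u2⟩ := half_bounds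
  obtain ⟨v1, v2⟩ := threehalf_bounds
  obtain ⟨b1, b2⟩ := log_bounds
  have a1 := Real.log_two_gt_d9
  have a2 := Real.log_two_lt_d9
  set u : ℝ := (1 / 2 : ℝ) ^ (20 / 41 : ℝ) with hu
  set v : ℝ := (3 / 2 : ℝ) ^ (20 / 41 : ℝ) with hv
  set a : ℝ := log 2 with ha
  set b : ℝ := log (3 / 2) with hb
  set x : ℝ := θ - 20 / 41 with hx
  have e1 : (1 / 2 : ℝ) ^ θ = u * (1 / 2 : ℝ) ^ x := by
    rw [hu, ← rpow_add (by norm_num)]
    congr 1
    rw [hx]
    ring
  have e2 : (3 / 2 : ℝ) ^ θ = v * (3 / 2 : ℝ) ^ x := by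
    rw [hv, ← rpow_add (by norm_num)]
    congr 1
    rw [hx]
    ring
  have g1 : 1 - x * a ≤ (1 / 2 : ℝ) ^ x := by
    rw [rpow_def_of_pos (by norm_num)]
    have h := add_one_le_exp (log (1 / 2) * x)
    have h2 : log (1 / 2 : ℝ) = -a := by
      rw [one_div, log_inv]
    rw [h2] at h ⊢
    linarith
  have g2 : 1 + x * b ≤ (3 / 2 : ℝ) ^ x := by
    rw [rpow_def_of_pos (by norm_num)]
    have h := add_one_le_exp (log (3 / 2) * x)
    linarith
  have s1 := mul_le_mul_of_nonneg_left g1 (show 0 ≤ u by linarith)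
  have s2 := mul_le_mul_of_nonneg_left g2 (show 0 ≤ v by linarith)
  have hb1 : (0.4054 : ℝ) ≤ b := by linarith
  have hb2 : b ≤ 0.4058 := by linarith
  have w1 : -0.001 ≤ b * v - a * u := by
    have p1 : 0.4054 * 1.2187 ≤ b * v := mul_le_mul hb1 v1 (by norm_num) (by linarith)
    have p2 : a * u ≤ 0.6932 * 0.7132 := mul_le_mul (by linarith) u2 (by linarith) (by norm_num)
    linarith
  have w2 : b * v - a * u ≤ 0.001 := by
    have p1 : b * v ≤ 0.4058 * 1.2188 := mul_le_mul hb2 v2 (by linarith) (by norm_num)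
    have p2 : 0.6931 * 0.7131 ≤ a * u := mul_le_mul (by linarith) u1 (by norm_num) (by linarith)
    linarith
  have x1 : -1 ≤ x := by
    rw [hx]
    linarith
  have x2 : x ≤ 1 := by
    rw [hx]
    linarith
  have w3 : -0.001 ≤ x * (b * v - a * u) := by
    rcases le_total 0 x with h | h
    · nlinarith
    · nlinarith
  rw [e1, e2, le_div_iff₀ (by norm_num)]
  have : u * (1 - x * a) + v * (1 + x * b) = u + v + x * (b * v - a * u) := by ring
  linarith

end Pool.Agent.PlunTwo
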