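import Pool.Agent.PlunTwo.Main
import Pool.Agent.PlunTwo.Numeric

/-!
# The density form
-/

set_option autoImplicit false

open Finset Classical

namespace Pool.Agent.PlunTwo

theorem factor_one {s θ : ℝ} : factor 1 s θ = 1 := by
  unfold factor
  norm_num

theorem factor_two {lam θ : ℝ} (h0 : 0 < lam) (h1 : lam ≤ 1) : factor lam 2 θ = 1 := by
  unfold factor
  have e1 : (2 - lam - 2 * (1 - lam)) / lam = 1 := by
    field_simp
    ring
  have e2 : (2 - lam) ≠ 0 := by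
    intro h
    linarith
  rw [e1, Real.one_rpow, show (2 : ℝ) / 2 = 1 by norm_num, Real.one_rpow]
  field_simp
  ring

theorem factor_twothirds {θ : ℝ} (h0 : 0 ≤ θ) (h1 : θ ≤ 1) : 0.965 ≤ factor (2 / 3) 1 θ := by
  have h := half_sum_ge h0 h1
  unfold factor
  have e1 : (2 - 2 / 3 - 1 * (1 - 2 / 3)) / (2 / 3) = (3 / 2 : ℝ) := by norm_num
  rw [e1]
  have : (2 / 3 * (3 / 2 : ℝ) ^ θ + (2 - 2 * (2 / 3)) * (1 / 2 : ℝ) ^ θ) / (2 - 2 / 3) =
      ((1 / 2 : ℝ) ^ θ + (3 / 2 : ℝ) ^ θ) / 2 := by ring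
  rw [this]
  exact h

theorem factor_le_one {lam s θ : ℝ} (h0 : 0 ≤ θ) (h1 : θ ≤ 1) (hl0 : 0 < lam) (hl1 : lam ≤ 1)
    (hs1 : 1 ≤ s) (hs2 : s ≤ 2) : factor lam s θ ≤ 1 := by
  have hc : ConcaveOn ℝ (Set.Ici 0) fun x : ℝ => x ^ θ := Real.concaveOn_rpow h0 h1
  have h2 : 0 < 2 - lam := by linarith
  have hm : 0 ≤ (2 - lam - s * (1 - lam)) / lam := div_nonneg (by nlinarith) hl0.le
  have h := hc.2 (show (2 - lam - s * (1 - lam)) / lam ∈ Set.Ici 0 from hm)
    (show s / 2 ∈ Set.Ici (0 : ℝ) from (by linarith : (0 : ℝ) ≤ s / 2))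
    (show 0 ≤ lam / (2 - lam) from div_nonneg hl0.le h2.le)
    (show 0 ≤ (2 - 2 * lam) / (2 - lam) from div_nonneg (by linarith) h2.le)
    (by field_simp; ring)
  simp only [smul_eq_mul] at h
  have e : lam / (2 - lam) * ((2 - lam - s * (1 - lam)) / lam) +
      (2 - 2 * lam) / (2 - lam) * (s / 2) = 1 := by
    field_simp
    ring
  rw [e, Real.one_rpow] at h
  refine le_trans (le_of_eq ?_) h
  unfold factor
  ring

theorem onStairs_always (N : ℕ) (A : Set (ℕ × ℕ)) : OnStairs N A (2 / 3 * sigma N A) := by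
  intro a ha b hb
  have h1 := row_zero_ge N A ha
  have h2 := rows_ge N A (show b ≤ N + 1 by omega)
  have h3 : (row 0 A b : ℝ) ≤ row 0 A a := by exact_mod_cast row_mono 0 A hb
  have h4 : (0 : ℝ) ≤ row 1 A b := Nat.cast_nonneg _
  -- `a + b ≤ 3 / 2 * max (a, 2 b)`
  have hs := sigma_nonneg N A
  have hbR : (b : ℝ) ≤ a := by exact_mod_cast hb
  linarith

theorem onFirst_always (N : ℕ) (A : Set (ℕ × ℕ)) : OnFirst N A (1 * sigma N A) := by
  intro l hl
  rw [one_mul]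
  exact row_zero_ge N A hl

theorem density {N j k : ℕ} (hj : 0 < j) (hk : j < k) (A B : Set (ℕ × ℕ)) {lam s : ℝ}
    (hl0 : 0 < lam) (hl1 : lam ≤ 1) (hs1 : 1 ≤ s) (hs2 : s ≤ 2)
    (hA : OnStairs N A (lam * sigma N A))
    (hB : OnFirst N (kfold B k) (s * sigma N (kfold B k))) :
    factor lam s ((j : ℝ) / k) * (sigma N A ^ (1 - (j : ℝ) / k) *
      sigma N (kfold B k) ^ ((j : ℝ) / k)) ≤ sigma N (msum A (kfold B j)) := by
  obtain ⟨hθ0, hθ1⟩ := theta_pos hj hk
  rcases (sigma_nonneg N A).eq_or_lt with h | hα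
  · rw [← h, Real.zero_rpow (by linarith), zero_mul, mul_zero]
    exact sigma_nonneg _ _
  rcases (sigma_nonneg N (kfold B k)).eq_or_lt with h | hβ
  · rw [← h, Real.zero_rpow hθ0.ne', mul_zero, mul_zero]
    exact sigma_nonneg _ _
  have hpos : 0 ≤ sigma N A ^ (1 - (j : ℝ) / k) * sigma N (kfold B k) ^ ((j : ℝ) / k) :=
    mul_nonneg (Real.rpow_nonneg hα.le _) (Real.rpow_nonneg hβ.le _)
  refine le_sigma N _ _ (fun n hn => ?_) fun n hn => ?_
  · have h := one_row hj hk hn A B hα hβ (fun l hl => row_zero_ge N A hl)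
      (fun l hl => row_zero_ge N (kfold B k) hl)
    refine le_trans (mul_le_mul_of_nonneg_right ?_ (by positivity)) h
    have := mul_le_mul_of_nonneg_right (factor_le_one hθ0.le hθ1.le hl0 hl1 hs1 hs2) hpos
    rwa [one_mul] at this
  · rcases hs2.eq_or_lt with h2 | h2
    · subst h2
      rw [factor_two hl0 hl1, one_mul]
      refine two_rows_first hj hk hn A B hα hβ (fun l hl => rows_ge N A hl) fun l hl => ?_
      have := hB l hl
      linarith
    · exact two_rows_two hj hk hn A B hα hβ hl0 hl1 hs1 h2 hA (fun l hl => rows_ge N A hl) hB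
        fun l hl => rows_ge N (kfold B k) hl

end Pool.Agent.PlunTwo
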