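import Mathlib

/-!
# Numerical inequalities for `x ^ θ`
-/

set_option autoImplicit false

namespace Pool.Agent.PlunTwo

open Real

theorem one_slope {θ t : ℝ} (h0 : 0 < θ) (h1 : θ ≤ 1) (ht : 0 < t) (x : ℝ) (hx : 0 ≤ x) :
    t ^ (θ - 1) * min x t + 0 * min x 0 ≤ x ^ θ := by
  rw [zero_mul, add_zero]
  rcases le_total x t with h | h
  · rw [min_eq_left h]
    rcases hx.eq_or_lt with h2 | h2
    · rw [← h2, mul_zero, zero_rpow h0.ne']
    · have h3 : t ^ (θ - 1) ≤ x ^ (θ - 1) := rpow_le_rpow_of_nonpos h2 h (by linarith)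
      calc t ^ (θ - 1) * x ≤ x ^ (θ - 1) * x := mul_le_mul_of_nonneg_right h3 hx
        _ = x ^ θ := by
          rw [← rpow_add_one h2.ne']
          congr 1
          ring
  · rw [min_eq_right h]
    calc t ^ (θ - 1) * t = t ^ θ := by
          rw [← rpow_add_one ht.ne']
          congr 1
          ring
      _ ≤ x ^ θ := rpow_le_rpow ht.le h h0.le

/-- The two slopes. -/
theorem two_slopes {θ t₁ t₂ : ℝ} (h0 : 0 < θ) (h1 : θ ≤ 1) (ht₁ : 0 < t₁) (ht₂ : t₁ < t₂) :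
    0 ≤ t₁ ^ θ / t₁ - (t₂ ^ θ - t₁ ^ θ) / (t₂ - t₁) ∧ 0 ≤ (t₂ ^ θ - t₁ ^ θ) / (t₂ - t₁) ∧
    ∀ x : ℝ, 0 ≤ x →
      (t₁ ^ θ / t₁ - (t₂ ^ θ - t₁ ^ θ) / (t₂ - t₁)) * min x t₁ +
        (t₂ ^ θ - t₁ ^ θ) / (t₂ - t₁) * min x t₂ ≤ x ^ θ := by
  have hc : ConcaveOn ℝ (Set.Ici 0) fun x : ℝ => x ^ θ := concaveOn_rpow h0.le h1
  have hd : 0 < t₂ - t₁ := by linarith
  have ht₂' : 0 < t₂ := by linarith
  have hmono : t₁ ^ θ ≤ t₂ ^ θ := rpow_le_rpow ht₁.le ht₂.le h0.le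
  -- concavity between `0` and `y`
  have hzero : ∀ x y : ℝ, 0 ≤ x → x ≤ y → 0 < y → x / y * y ^ θ ≤ x ^ θ := by
    intro x y hx hxy hy
    have h := hc.2 (show (0 : ℝ) ∈ Set.Ici 0 by simp) (show y ∈ Set.Ici 0 from hy.le)
      (show 0 ≤ 1 - x / y by
        rw [sub_nonneg, div_le_one hy]
        exact hxy) (div_nonneg hx hy.le) (by ring)
    simp only [smul_eq_mul, mul_zero, zero_add, zero_rpow h0.ne'] at h
    rwa [div_mul_cancel₀ x hy.ne'] at h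
  have ha₂ : 0 ≤ (t₂ ^ θ - t₁ ^ θ) / (t₂ - t₁) := div_nonneg (by linarith) hd.le
  refine ⟨?_, ha₂, ?_⟩
  · have h := hzero t₁ t₂ ht₁.le ht₂.le ht₂'
    rw [sub_nonneg, div_le_div_iff₀ hd ht₁]
    have h2 : t₁ * t₂ ^ θ ≤ t₂ * t₁ ^ θ := by
      have := mul_le_mul_of_nonneg_left h ht₂'.le
      calc t₁ * t₂ ^ θ = t₂ * (t₁ / t₂ * t₂ ^ θ) := by field_simp
        _ ≤ _ := this
    nlinarith
  · intro x hx
    rcases le_total x t₁ with h | h
    · rw [min_eq_left h, min_eq_left (h.trans ht₂.le)]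
      have := hzero x t₁ hx h ht₁
      calc _ = x / t₁ * t₁ ^ θ := by ring
        _ ≤ _ := this
    · rw [min_eq_right h]
      have e1 : (t₁ ^ θ / t₁ - (t₂ ^ θ - t₁ ^ θ) / (t₂ - t₁)) * t₁ =
          t₁ ^ θ - (t₂ ^ θ - t₁ ^ θ) / (t₂ - t₁) * t₁ := by
        field_simp
      rw [e1]
      rcases le_total x t₂ with h' | h'
      · rw [min_eq_left h']
        have h3 := hc.2 (show t₁ ∈ Set.Ici 0 from ht₁.le) (show t₂ ∈ Set.Ici 0 from ht₂'.le)
          (show 0 ≤ (t₂ - x) / (t₂ - t₁) from div_nonneg (by linarith) hd.le)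
          (show 0 ≤ (x - t₁) / (t₂ - t₁) from div_nonneg (by linarith) hd.le)
          (by field_simp; ring)
        simp only [smul_eq_mul] at h3
        have e2 : (t₂ - x) / (t₂ - t₁) * t₁ + (x - t₁) / (t₂ - t₁) * t₂ = x := by
          field_simp
          ring
        rw [e2] at h3
        refine le_trans (le_of_eq ?_) h3
        field_simp
        ring
      · rw [min_eq_right h']
        have h4 : (t₂ ^ θ - t₁ ^ θ) / (t₂ - t₁) * (t₂ - t₁) = t₂ ^ θ - t₁ ^ θ := by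
          field_simp
        calc _ = t₁ ^ θ + (t₂ ^ θ - t₁ ^ θ) / (t₂ - t₁) * (t₂ - t₁) := by ring
          _ = t₂ ^ θ := by rw [h4]; ring
          _ ≤ x ^ θ := rpow_le_rpow ht₂'.le h' h0.le

end Pool.Agent.PlunTwo
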