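import Mathlib

/-!
# Weighted Plünnecke cuts in commutative layered graphs

Levels `L 0, L 1, …, L k` of a cancellative commutative monoid, edges `x → x + b`, `b ∈ B`.
-/

set_option autoImplicit false
set_option linter.unusedSectionVars false

open Finset

namespace Pool.Agent.PlunTwo

variable {M : Type} [AddCancelCommMonoid M] [DecidableEq M]

/-- The elements of `T` which are reached from `X` in one step. -/
def nxt (B X T : Finset M) : Finset M := T.filter fun y => ∃ x ∈ X, ∃ b ∈ B, x + b = y

theorem mem_nxt {B X T : Finset M} {y : M} :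
    y ∈ nxt B X T ↔ y ∈ T ∧ ∃ x ∈ X, ∃ b ∈ B, x + b = y := by
  simp [nxt]

theorem nxt_mono {B X X' T : Finset M} (h : X ⊆ X') : nxt B X T ⊆ nxt B X' T := by
  intro y hy
  rw [mem_nxt] at hy ⊢
  obtain ⟨h1, x, hx, b, hb, e⟩ := hy
  exact ⟨h1, x, h hx, b, hb, e⟩

theorem nxt_sub {B X T : Finset M} : nxt B X T ⊆ T := filter_subset _ _

/-- The elements of the levels which are reached from `Z ⊆ L 0`. -/
def img (B : Finset M) (L : ℕ → Finset M) (Z : Finset M) : ℕ → Finset M
  | 0 => Z
  | i + 1 => nxt B (img B L Z i) (L (i + 1))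

/-- The elements of the levels which are reached outside of `S`. -/
def reach (B : Finset M) (L S : ℕ → Finset M) : ℕ → Finset M
  | 0 => L 0 \ S 0
  | i + 1 => nxt B (reach B L S i) (L (i + 1)) \ S (i + 1)

theorem mem_reach_succ {B : Finset M} {L S : ℕ → Finset M} {i : ℕ} {y : M} :
    y ∈ reach B L S (i + 1) ↔
      (y ∈ L (i + 1) ∧ ∃ x ∈ reach B L S i, ∃ b ∈ B, x + b = y) ∧ y ∉ S (i + 1) := by
  rw [reach, mem_sdiff, mem_nxt]

theorem reach_sub {B : Finset M} {L S : ℕ → Finset M} {i : ℕ} {y : M}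
    (h : y ∈ reach B L S i) : y ∈ L i ∧ y ∉ S i := by
  cases i with
  | zero => simpa [reach] using h
  | succ i =>
    rw [mem_reach_succ] at h
    exact ⟨h.1.1, h.2⟩

/-- The convexity of the levels which makes the layered graph commutative. -/
def Conv (B : Finset M) (L : ℕ → Finset M) : Prop :=
  ∀ i, ∀ x ∈ L i, ∀ b ∈ B, ∀ b' ∈ B, x + b + b' ∈ L (i + 2) → x + b ∈ L (i + 1)

/-- `S` separates the level `0` from the level `k`. -/
def Sep (B : Finset M) (L : ℕ → Finset M) (k : ℕ) (S : ℕ → Finset M) : Prop :=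
  reach B L S k = ∅

/-- The weight of a family. -/
noncomputable def wt (k : ℕ) (r : ℝ) (S : ℕ → Finset M) : ℝ :=
  ∑ i ∈ range (k + 1), r ^ i * ((S i).card : ℝ)

/-- There is a path outside of `S` from `y` at level `i` to the level `k`. -/
def Co (B : Finset M) (L S : ℕ → Finset M) (k i : ℕ) (y : M) : Prop :=
  ∃ z : ℕ → M, z i = y ∧ (∀ l, i ≤ l → l < k → ∃ b ∈ B, z l + b = z (l + 1)) ∧
    ∀ l, i ≤ l → l ≤ k → z l ∈ L l ∧ z l ∉ S l

theorem Co.mem {B : Finset M} {L S : ℕ → Finset M} {k i : ℕ} {y : M} (h : Co B L S k i y)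
    (hi : i ≤ k) : y ∈ L i ∧ y ∉ S i := by
  obtain ⟨z, h1, _, h3⟩ := h
  have := h3 i le_rfl hi
  rwa [h1] at this

theorem co_last {B : Finset M} {L S : ℕ → Finset M} {k : ℕ} {y : M} (h : y ∈ L k)
    (h' : y ∉ S k) : Co B L S k k y := by
  refine ⟨fun _ => y, rfl, fun l h1 h2 => absurd h2 (by omega), fun l h1 h2 => ?_⟩
  have : l = k := by omega
  subst this
  exact ⟨h, h'⟩

theorem co_step {B : Finset M} {L S : ℕ → Finset M} {k i : ℕ} {x b : M} (hi : i < k)
    (hx : x ∈ L i) (hx' : x ∉ S i) (hb : b ∈ B) (h : Co B L S k (i + 1) (x + b)) :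
    Co B L S k i x := by
  obtain ⟨z, h1, h2, h3⟩ := h
  refine ⟨fun l => if l = i then x else z l, by simp, fun l hl hk => ?_, fun l hl hk => ?_⟩
  · by_cases e : l = i
    · subst e
      refine ⟨b, hb, ?_⟩
      simp [h1]
    · obtain ⟨c, hc, e2⟩ := h2 l (by omega) hk
      refine ⟨c, hc, ?_⟩
      have : l + 1 ≠ i := by omega
      simp [e, this, e2]
  · by_cases e : l = i
    · subst e
      simp [hx, hx']
    · simpa [e] using h3 l (by omega) hk

theorem reach_not_co {B : Finset M} {L S : ℕ → Finset M} {k i : ℕ} {y : M}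
    (hS : Sep B L k S) (hi : i ≤ k) (h : y ∈ reach B L S i) : ¬ Co B L S k i y := by
  rintro ⟨z, h1, h2, h3⟩
  have key : ∀ l, i ≤ l → l ≤ k → z l ∈ reach B L S l := by
    intro l hl
    induction l, hl using Nat.le_induction with
    | base => intro _; rwa [h1]
    | succ l hl ih =>
      intro hk
      obtain ⟨b, hb, e⟩ := h2 l hl (by omega)
      have := h3 (l + 1) (by omega) hk
      rw [mem_reach_succ]
      exact ⟨⟨this.1, z l, ih (by omega), b, hb, e⟩, this.2⟩
  have := key k hi le_rfl
  rw [hS] at this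
  simp at this

/-- Move the part `X` of `S (p + 1)` down to the set `P` at level `p`. -/
def down (S : ℕ → Finset M) (p : ℕ) (X P : Finset M) : ℕ → Finset M := fun i =>
  if i = p then S p ∪ P else if i = p + 1 then S (p + 1) \ X else S i

/-- Move the part `X` of `S (p + 1)` up to the set `F` at level `p + 2`. -/
def up (S : ℕ → Finset M) (p : ℕ) (X F : Finset M) : ℕ → Finset M := fun i =>
  if i = p + 1 then S (p + 1) \ X else if i = p + 2 then S (p + 2) ∪ F else S i

theorem sep_down {B : Finset M} {L S : ℕ → Finset M} {k p : ℕ} (hp : p + 2 ≤ k)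
    (hS : Sep B L k S) (X : Finset M) :
    Sep B L k (down S p X ((reach B L S p).filter fun x => ∃ b ∈ B, x + b ∈ X)) := by
  classical
  set P := (reach B L S p).filter fun x => ∃ b ∈ B, x + b ∈ X with hP
  have h0 : ∀ i, i < p → reach B L (down S p X P) i = reach B L S i := by
    intro i
    induction i with
    | zero =>
      intro hi
      have e : down S p X P 0 = S 0 := by
        unfold down
        rw [if_neg (by omega), if_neg (by omega)]
      simp only [reach, e]
    | succ i ih =>
      intro hi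
      have e : down S p X P (i + 1) = S (i + 1) := by
        unfold down
        rw [if_neg (by omega), if_neg (by omega)]
      simp only [reach, e, ih (by omega)]
  have h1 : reach B L (down S p X P) p ⊆ reach B L S p \ P := by
    have e : down S p X P p = S p ∪ P := by
      unfold down
      rw [if_pos rfl]
    intro y hy
    cases p with
    | zero =>
      simp only [reach, e, mem_sdiff, mem_union, not_or] at hy ⊢
      exact ⟨⟨hy.1, hy.2.1⟩, hy.2.2⟩
    | succ q =>
      rw [mem_reach_succ, e, h0 q (by omega), mem_union, not_or] at hy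
      rw [mem_sdiff, mem_reach_succ]
      exact ⟨⟨hy.1, hy.2.1⟩, hy.2.2⟩
  have h2 : ∀ i, p + 1 ≤ i → reach B L (down S p X P) i ⊆ reach B L S i := by
    intro i hi
    induction i, hi using Nat.le_induction with
    | base =>
      have e : down S p X P (p + 1) = S (p + 1) \ X := by
        unfold down
        rw [if_neg (by omega), if_pos rfl]
      intro y hy
      rw [mem_reach_succ, e, mem_sdiff, not_and, not_not] at hy
      obtain ⟨⟨hyL, x, hx, b, hb, exy⟩, hy2⟩ := hy
      have hx' := h1 hx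
      rw [mem_sdiff] at hx'
      rw [mem_reach_succ]
      refine ⟨⟨hyL, x, hx'.1, b, hb, exy⟩, fun hyS => ?_⟩
      apply hx'.2
      rw [hP, mem_filter]
      refine ⟨hx'.1, b, hb, ?_⟩
      rw [exy]
      exact hy2 hyS
    | succ i hi ih =>
      have e : down S p X P (i + 1) = S (i + 1) := by
        unfold down
        rw [if_neg (by omega), if_neg (by omega)]
      intro y hy
      rw [mem_reach_succ, e] at hy
      rw [mem_reach_succ]
      obtain ⟨⟨hyL, x, hx, h⟩, hy2⟩ := hy
      exact ⟨⟨hyL, x, ih hx, h⟩, hy2⟩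
  have := h2 k (by omega)
  rw [hS] at this
  exact subset_empty.1 this

theorem sep_up {B : Finset M} {L S : ℕ → Finset M} {k p : ℕ} (hp : p + 2 ≤ k)
    (hS : Sep B L k S) (X F : Finset M)
    (hF : ∀ y, Co B L S k (p + 2) y → (∃ x ∈ X, ∃ b ∈ B, x + b = y) → y ∈ F) :
    Sep B L k (up S p X F) := by
  classical
  have h0 : ∀ i, i < p + 1 → reach B L (up S p X F) i = reach B L S i := by
    intro i
    induction i with
    | zero =>
      intro hi
      have e : up S p X F 0 = S 0 := by
        unfold up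
        rw [if_neg (by omega), if_neg (by omega)]
      simp only [reach, e]
    | succ i ih =>
      intro hi
      have e : up S p X F (i + 1) = S (i + 1) := by
        unfold up
        rw [if_neg (by omega), if_neg (by omega)]
      simp only [reach, e, ih (by omega)]
  have h1 : ∀ y ∈ reach B L (up S p X F) (p + 1), y ∈ reach B L S (p + 1) ∨ y ∈ X := by
    have e : up S p X F (p + 1) = S (p + 1) \ X := by
      unfold up
      rw [if_pos rfl]
    intro y hy
    rw [mem_reach_succ, e, h0 p (by omega), mem_sdiff, not_and, not_not] at hy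
    rw [mem_reach_succ]
    by_cases h : y ∈ S (p + 1)
    · exact Or.inr (hy.2 h)
    · exact Or.inl ⟨hy.1, h⟩
  have h2 : ∀ i, p + 2 ≤ i → i ≤ k → ∀ y ∈ reach B L (up S p X F) i, ¬ Co B L S k i y := by
    intro i hi
    induction i, hi using Nat.le_induction with
    | base =>
      intro hk y hy hco
      have e : up S p X F (p + 2) = S (p + 2) ∪ F := by
        unfold up
        rw [if_neg (by omega), if_pos rfl]
      rw [show p + 2 = (p + 1) + 1 from rfl, mem_reach_succ, e, mem_union, not_or] at hy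
      obtain ⟨⟨hyL, x, hx, b, hb, exy⟩, hy2, hy3⟩ := hy
      rcases h1 x hx with h | h
      · refine reach_not_co hS hk ?_ hco
        rw [show p + 2 = (p + 1) + 1 from rfl, mem_reach_succ]
        exact ⟨⟨hyL, x, h, b, hb, exy⟩, hy2⟩
      · exact hy3 (hF y hco ⟨x, h, b, hb, exy⟩)
    | succ i hi ih =>
      intro hk y hy hco
      rw [mem_reach_succ] at hy
      obtain ⟨⟨hyL, x, hx, b, hb, exy⟩, hy2⟩ := hy
      have hx' := reach_sub hx
      have hxS : x ∉ S i := by
        intro h
        apply hx'.2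
        unfold up
        rw [if_neg (by omega)]
        split_ifs with h3
        · rw [h3] at h
          exact mem_union_left _ h
        · exact h
      subst exy
      exact ih (by omega) x hx (co_step (by omega) hx'.1 hxS hb hco)
  unfold Sep
  rw [eq_empty_iff_forall_notMem]
  intro y hy
  refine h2 k hp le_rfl y hy ?_
  have hy' := reach_sub hy
  refine co_last hy'.1 fun h => hy'.2 ?_
  unfold up
  rw [if_neg (by omega)]
  split_ifs with h3
  · rw [h3] at h
    exact mem_union_left _ h
  · exact h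

theorem wt_down {k p : ℕ} (hp : p + 2 ≤ k) (r : ℝ) (S : ℕ → Finset M) (X P : Finset M)
    (hX : X ⊆ S (p + 1)) (hP : Disjoint (S p) P) :
    wt k r (down S p X P) = wt k r S + r ^ p * (P.card : ℝ) - r ^ (p + 1) * (X.card : ℝ) := by
  have h : wt k r (down S p X P) - wt k r S =
      ∑ i ∈ range (k + 1), (r ^ i * ((down S p X P i).card : ℝ) - r ^ i * ((S i).card : ℝ)) := by
    rw [wt, wt, sum_sub_distrib]
  rw [Finset.sum_eq_add (p : ℕ) (p + 1) (by omega)] at h
  · have e1 : ((down S p X P p).card : ℝ) = (S p).card + P.card := by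
      unfold down
      rw [if_pos rfl, card_union_of_disjoint hP]
      push_cast
      ring
    have e2 : ((down S p X P (p + 1)).card : ℝ) = (S (p + 1)).card - X.card := by
      unfold down
      rw [if_neg (by omega), if_pos rfl, cast_card_sdiff hX]
    rw [e1, e2] at h
    linarith
  · intro c _ hc
    unfold down
    rw [if_neg hc.1, if_neg hc.2]
    ring
  · intro h
    exact absurd (mem_range.2 (by omega)) h
  · intro h
    exact absurd (mem_range.2 (by omega)) h

theorem wt_up {k p : ℕ} (hp : p + 2 ≤ k) (r : ℝ) (S : ℕ → Finset M) (X F : Finset M)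
    (hX : X ⊆ S (p + 1)) (hF : Disjoint (S (p + 2)) F) :
    wt k r (up S p X F) =
      wt k r S + r ^ (p + 2) * (F.card : ℝ) - r ^ (p + 1) * (X.card : ℝ) := by
  have h : wt k r (up S p X F) - wt k r S =
      ∑ i ∈ range (k + 1), (r ^ i * ((up S p X F i).card : ℝ) - r ^ i * ((S i).card : ℝ)) := by
    rw [wt, wt, sum_sub_distrib]
  rw [Finset.sum_eq_add (p + 1 : ℕ) (p + 2) (by omega)] at h
  · have e1 : ((up S p X F (p + 2)).card : ℝ) = (S (p + 2)).card + F.card := by
      unfold up
      rw [if_neg (by omega), if_pos rfl, card_union_of_disjoint hF]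
      push_cast
      ring
    have e2 : ((up S p X F (p + 1)).card : ℝ) = (S (p + 1)).card - X.card := by
      unfold up
      rw [if_pos rfl, cast_card_sdiff hX]
    rw [e1, e2] at h
    linarith
  · intro c _ hc
    unfold up
    rw [if_neg hc.1, if_neg hc.2]
    ring
  · intro h
    exact absurd (mem_range.2 (by omega)) h
  · intro h
    exact absurd (mem_range.2 (by omega)) h

/-- Layer cake: a sum of degrees. -/
theorem sum_layers (S : Finset M) (d : M → ℕ) (T : ℕ) (hd : ∀ s ∈ S, d s ≤ T) :
    ∑ s ∈ S, d s = ∑ τ ∈ range T, (S.filter fun s => τ < d s).card := by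
  have h : ∀ s ∈ S, d s = ∑ τ ∈ range T, if τ < d s then 1 else 0 := by
    intro s hs
    rw [← card_filter]
    have : (range T).filter (fun τ => τ < d s) = range (d s) := by
      ext τ
      simp only [mem_filter, mem_range]
      have := hd s hs
      omega
    rw [this, card_range]
  rw [sum_congr rfl h, sum_comm]
  refine sum_congr rfl fun τ _ => ?_
  rw [card_filter]

/-- Comparison of degrees along a relation which expands by the factor `c`. -/
theorem layers_le (S R : Finset M) (d D : M → ℕ) (T : ℕ) (hd : ∀ s ∈ S, d s ≤ T)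
    (hD : ∀ x ∈ R, D x ≤ T) (c : ℝ)
    (h : ∀ τ < T, c * ((S.filter fun s => τ < d s).card : ℝ) ≤
      ((R.filter fun x => τ < D x).card : ℝ)) :
    c * ((∑ s ∈ S, d s : ℕ) : ℝ) ≤ ((∑ x ∈ R, D x : ℕ) : ℝ) := by
  rw [sum_layers S d T hd, sum_layers R D T hD]
  push_cast
  rw [mul_sum]
  exact sum_le_sum fun τ hτ => h τ (mem_range.1 hτ)

theorem layers_eq (S R : Finset M) (d D : M → ℕ) (T : ℕ) (hd : ∀ s ∈ S, d s ≤ T)
    (hD : ∀ x ∈ R, D x ≤ T) (c : ℝ)
    (h : ∀ τ < T, c * ((S.filter fun s => τ < d s).card : ℝ) ≤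
      ((R.filter fun x => τ < D x).card : ℝ))
    (he : ((∑ x ∈ R, D x : ℕ) : ℝ) ≤ c * ((∑ s ∈ S, d s : ℕ) : ℝ)) (τ : ℕ) (hτ : τ < T) :
    ((R.filter fun x => τ < D x).card : ℝ) = c * ((S.filter fun s => τ < d s).card : ℝ) := by
  rw [sum_layers S d T hd, sum_layers R D T hD] at he
  push_cast at he
  rw [mul_sum] at he
  have h2 := le_antisymm (sum_le_sum fun τ hτ => h τ (mem_range.1 hτ)) he
  exact ((sum_eq_sum_iff_of_le fun τ hτ => h τ (mem_range.1 hτ)).1 h2 τ
    (mem_range.2 hτ)).symm

/-- Double counting of the edges between two levels. -/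
theorem double_count (B R S : Finset M) :
    ∑ x ∈ R, (B.filter fun b => x + b ∈ S).card =
      ∑ s ∈ S, (B.filter fun b => ∃ x ∈ R, x + b = s).card := by
  simp only [card_filter]
  rw [sum_comm, sum_comm (s := S)]
  refine sum_congr rfl fun b _ => ?_
  rw [← card_filter, ← card_filter]
  refine card_bij (fun x _ => x + b) ?_ ?_ ?_
  · intro x hx
    rw [mem_filter] at hx ⊢
    exact ⟨hx.2, x, hx.1, rfl⟩
  · intro x _ y _ h
    exact add_right_cancel h
  · intro s hs
    rw [mem_filter] at hs
    obtain ⟨h1, x, hx, e⟩ := hs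
    refine ⟨x, ?_, e⟩
    rw [mem_filter]
    exact ⟨hx, e ▸ h1⟩

/-- In a separating family of least weight an inner level can be moved down. -/
theorem push {B : Finset M} {L S : ℕ → Finset M} {k p : ℕ} (hL : Conv B L) (hp : p + 2 ≤ k)
    {r : ℝ} (hr : 0 < r) (hS : Sep B L k S)
    (hmin : ∀ S', Sep B L k S' → wt k r S ≤ wt k r S') :
    ∃ S', Sep B L k S' ∧ wt k r S' ≤ wt k r S ∧ S' (p + 1) = ∅ ∧
      ∀ i, p + 2 ≤ i → S' i = S i := by
  classical
  set R := reach B L S p with hR
  set S1 := S (p + 1) with hS1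
  set Q := (L (p + 2)).filter (fun y => Co B L S k (p + 2) y) with hQ
  set dp : M → ℕ := fun x => (B.filter fun b => x + b ∈ S1).card with hdp
  set dq : M → ℕ := fun s => (B.filter fun b => s + b ∈ Q).card with hdq
  set dl : M → ℕ := fun s => (B.filter fun b => ∃ x ∈ R, x + b = s).card with hdl
  set dm : M → ℕ := fun y => (B.filter fun b => ∃ s ∈ S1, s + b = y).card with hdm
  have hRS : Disjoint (S p) R := by
    rw [disjoint_left]
    intro x hx hx'
    exact (reach_sub hx').2 hx
  have hQS : Disjoint (S (p + 2)) Q := by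
    rw [disjoint_left]
    intro y hy hy'
    rw [hQ, mem_filter] at hy'
    exact (hy'.2.mem hp).2 hy
  -- the key fact
  have key : ∀ x ∈ R, ∀ b ∈ B, ∀ b' ∈ B, x + b + b' ∈ Q → x + b ∈ S1 := by
    intro x hx b hb b' hb' hy
    rw [hQ, mem_filter] at hy
    by_contra hcon
    have h1 : x + b ∈ L (p + 1) := hL p x (reach_sub hx).1 b hb b' hb' hy.1
    have h2 : x + b ∈ reach B L S (p + 1) := by
      rw [mem_reach_succ]
      exact ⟨⟨h1, x, hx, b, hb, rfl⟩, hcon⟩
    exact reach_not_co hS (by omega) h2 (co_step (by omega) h1 hcon hb' hy.2)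
  have E1 : ∀ x ∈ R, ∀ b ∈ B, dq (x + b) ≤ dp x := by
    intro x hx b hb
    refine card_le_card fun b' hb' => ?_
    rw [mem_filter] at hb' ⊢
    refine ⟨hb'.1, key x hx b' hb'.1 b hb ?_⟩
    rw [add_right_comm]
    exact hb'.2
  have E2 : ∀ s ∈ S1, ∀ b' ∈ B, s + b' ∈ Q → dl s ≤ dm (s + b') := by
    intro s _ b' hb' hy
    refine card_le_card fun b hb => ?_
    rw [mem_filter] at hb ⊢
    obtain ⟨hb1, x, hx, e⟩ := hb
    refine ⟨hb1, x + b', key x hx b' hb' b hb1 ?_, ?_⟩
    · rw [add_right_comm, e]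
      exact hy
    · rw [add_right_comm, e]
  have hT1 : ∀ x : M, dp x ≤ B.card + 1 := fun x =>
    (card_le_card (filter_subset _ _)).trans (by omega)
  have hT2 : ∀ x : M, dq x ≤ B.card + 1 := fun x =>
    (card_le_card (filter_subset _ _)).trans (by omega)
  have hT3 : ∀ x : M, dl x ≤ B.card + 1 := fun x =>
    (card_le_card (filter_subset _ _)).trans (by omega)
  have hT4 : ∀ x : M, dm x ≤ B.card + 1 := fun x =>
    (card_le_card (filter_subset _ _)).trans (by omega)
  -- Hall conditions
  have H1 : ∀ X ⊆ S1, r * (X.card : ℝ) ≤ ((R.filter fun x => ∃ b ∈ B, x + b ∈ X).card : ℝ) := by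
    intro X hX
    have h1 := hmin _ (sep_down hp hS X)
    rw [wt_down hp r S X _ hX (hRS.mono_right (filter_subset _ _))] at h1
    have h2 : r ^ p * (r * (X.card : ℝ)) ≤
        r ^ p * ((R.filter fun x => ∃ b ∈ B, x + b ∈ X).card : ℝ) := by
      have : r ^ p * (r * (X.card : ℝ)) = r ^ (p + 1) * (X.card : ℝ) := by ring
      rw [this]
      linarith
    exact le_of_mul_le_mul_left h2 (pow_pos hr p)
  have H2 : ∀ X ⊆ S1, r⁻¹ * (X.card : ℝ) ≤
      ((Q.filter fun y => ∃ x ∈ X, ∃ b ∈ B, x + b = y).card : ℝ) := by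
    intro X hX
    have h1 := hmin _ (sep_up hp hS X (Q.filter fun y => ∃ x ∈ X, ∃ b ∈ B, x + b = y)
      (fun y hy h => by
        rw [mem_filter, hQ, mem_filter]
        exact ⟨⟨(hy.mem hp).1, hy⟩, h⟩))
    rw [wt_up hp r S X _ hX (hQS.mono_right (filter_subset _ _))] at h1
    have h2 : r ^ (p + 2) * (r⁻¹ * (X.card : ℝ)) ≤
        r ^ (p + 2) * ((Q.filter fun y => ∃ x ∈ X, ∃ b ∈ B, x + b = y).card : ℝ) := by
      have : r ^ (p + 2) * (r⁻¹ * (X.card : ℝ)) = r ^ (p + 1) * (X.card : ℝ) := by
        rw [pow_succ r (p + 1)]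
        field_simp
      rw [this]
      linarith
    exact le_of_mul_le_mul_left h2 (pow_pos hr _)
  have L1 : ∀ τ < B.card + 1, r * ((S1.filter fun s => τ < dq s).card : ℝ) ≤
      ((R.filter fun x => τ < dp x).card : ℝ) := by
    intro τ _
    refine (H1 _ (filter_subset _ _)).trans ?_
    exact_mod_cast card_le_card fun x hx => by
      rw [mem_filter] at hx ⊢
      obtain ⟨hx1, b, hb, hx2⟩ := hx
      rw [mem_filter] at hx2
      exact ⟨hx1, lt_of_lt_of_le hx2.2 (E1 x hx1 b hb)⟩
  have L2 : ∀ τ < B.card + 1, r⁻¹ * ((S1.filter fun s => τ < dl s).card : ℝ) ≤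
      ((Q.filter fun y => τ < dm y).card : ℝ) := by
    intro τ _
    refine (H2 _ (filter_subset _ _)).trans ?_
    exact_mod_cast card_le_card fun y hy => by
      rw [mem_filter] at hy ⊢
      obtain ⟨hy1, s, hs, b, hb, e⟩ := hy
      rw [mem_filter] at hs
      subst e
      exact ⟨hy1, lt_of_lt_of_le hs.2 (E2 s hs.1 b hb hy1)⟩
  have C1 : ∑ x ∈ R, dp x = ∑ s ∈ S1, dl s := double_count B R S1
  have C2 : ∑ s ∈ S1, dq s = ∑ y ∈ Q, dm y := double_count B S1 Q
  have I2 := layers_le S1 Q dl dm (B.card + 1) (fun s _ => hT3 s) (fun s _ => hT4 s) _ L2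
  rw [← C1, ← C2] at I2
  have I3 : ((∑ x ∈ R, dp x : ℕ) : ℝ) ≤ r * ((∑ s ∈ S1, dq s : ℕ) : ℝ) := by
    have := mul_le_mul_of_nonneg_left I2 hr.le
    rwa [← mul_assoc, mul_inv_cancel₀ hr.ne', one_mul] at this
  have I4 := layers_eq S1 R dq dp (B.card + 1) (fun s _ => hT2 s) (fun s _ => hT1 s) r L1 I3 0
    (by omega)
  have hP : (R.filter fun x => ∃ b ∈ B, x + b ∈ S1) = R.filter fun x => 0 < dp x := by
    refine filter_congr fun x _ => ?_
    rw [card_pos]
    constructor
    · rintro ⟨b, hb, h⟩
      exact ⟨b, mem_filter.2 ⟨hb, h⟩⟩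
    · rintro ⟨b, hb⟩
      rw [mem_filter] at hb
      exact ⟨b, hb.1, hb.2⟩
  have hPc : ((R.filter fun x => ∃ b ∈ B, x + b ∈ S1).card : ℝ) ≤ r * (S1.card : ℝ) := by
    rw [hP, I4]
    refine mul_le_mul_of_nonneg_left ?_ hr.le
    exact_mod_cast card_le_card (filter_subset _ _)
  refine ⟨down S p S1 (R.filter fun x => ∃ b ∈ B, x + b ∈ S1), sep_down hp hS S1, ?_, ?_, ?_⟩
  · rw [wt_down hp r S S1 _ (Subset.refl _) (hRS.mono_right (filter_subset _ _))]
    have h3 := mul_le_mul_of_nonneg_left hPc (pow_pos hr p).le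
    have : r ^ p * (r * (S1.card : ℝ)) = r ^ (p + 1) * (S1.card : ℝ) := by ring
    linarith
  · unfold down
    rw [if_neg (by omega), if_pos rfl]
    exact Finset.sdiff_self _
  · intro i hi
    unfold down
    rw [if_neg (by omega), if_neg (by omega)]

theorem sep_inter {B : Finset M} {L S : ℕ → Finset M} {k : ℕ} (hS : Sep B L k S)
    (S' : ℕ → Finset M) (h : ∀ i ≤ k, S' i = S i ∩ L i) : Sep B L k S' := by
  have key : ∀ i, i ≤ k → reach B L S' i = reach B L S i := by
    intro i
    induction i with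
    | zero =>
      intro hi
      simp only [reach]
      rw [h 0 hi]
      ext x
      simp only [mem_sdiff, mem_inter, not_and]
      tauto
    | succ i ih =>
      intro hi
      simp only [reach]
      rw [h (i + 1) hi, ih (by omega)]
      ext x
      simp only [mem_sdiff, mem_inter, not_and, mem_nxt]
      tauto
  unfold Sep
  rw [key k le_rfl]
  exact hS

/-- There is a separating family of least weight. -/
theorem exists_min (B : Finset M) (L : ℕ → Finset M) (k : ℕ) {r : ℝ} (hr : 0 < r) :
    ∃ S, Sep B L k S ∧ ∀ S', Sep B L k S' → wt k r S ≤ wt k r S' := by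
  classical
  let ext : (Fin (k + 1) → Finset M) → ℕ → Finset M := fun s i =>
    if h : i < k + 1 then s ⟨i, h⟩ else ∅
  let F : Finset (Fin (k + 1) → Finset M) :=
    (Fintype.piFinset fun i : Fin (k + 1) => (L i).powerset).filter fun s => Sep B L k (ext s)
  have hcut : ∀ S' : ℕ → Finset M, Sep B L k S' → (fun i : Fin (k + 1) => S' i ∩ L i) ∈ F ∧
      wt k r (ext fun i : Fin (k + 1) => S' i ∩ L i) ≤ wt k r S' := by
    intro S' hS'
    have he : ∀ i ≤ k, ext (fun i : Fin (k + 1) => S' i ∩ L i) i = S' i ∩ L i := by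
      intro i hi
      simp only [ext]
      rw [dif_pos (by omega)]
    refine ⟨?_, ?_⟩
    · rw [mem_filter, Fintype.mem_piFinset]
      refine ⟨fun i => ?_, sep_inter hS' _ he⟩
      rw [mem_powerset]
      exact inter_subset_right
    · refine sum_le_sum fun i hi => ?_
      rw [mem_range] at hi
      rw [he i (by omega)]
      refine mul_le_mul_of_nonneg_left ?_ (pow_pos hr i).le
      exact_mod_cast card_le_card inter_subset_left
  have hne : F.Nonempty := by
    refine ⟨_, (hcut (fun i => L i) ?_).1⟩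
    unfold Sep
    cases k with
    | zero => simp [reach]
    | succ k =>
      rw [reach, eq_empty_iff_forall_notMem]
      intro y hy
      rw [mem_sdiff, mem_nxt] at hy
      exact hy.2 hy.1.1
  obtain ⟨s, hs, hmin⟩ := exists_min_image F (fun s => wt k r (ext s)) hne
  refine ⟨ext s, (mem_filter.1 hs).2, fun S' hS' => ?_⟩
  obtain ⟨h1, h2⟩ := hcut S' hS'
  exact (hmin _ h1).trans h2

/-- **The cut form of Plünnecke's inequality** for commutative layered graphs. -/
theorem cut {B : Finset M} {L : ℕ → Finset M} (hL : Conv B L) {k j : ℕ} (hk : 0 < k)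
    (hj : j ≤ k) {r : ℝ} (hr : 0 < r) :
    ∃ Z ⊆ L 0, ((L 0 \ Z).card : ℝ) + r ^ k * ((img B L Z k).card : ℝ) ≤
      r ^ j * ((L j).card : ℝ) := by
  classical
  have T : ∀ d, d < k → ∃ S, Sep B L k S ∧ (∀ S', Sep B L k S' → wt k r S ≤ wt k r S') ∧
      ∀ i, k - d ≤ i → i < k → S i = ∅ := by
    intro d
    induction d with
    | zero =>
      intro _
      obtain ⟨S, h1, h2⟩ := exists_min B L k hr
      exact ⟨S, h1, h2, fun i hi hi' => absurd hi' (by omega)⟩
    | succ d ih =>
      intro hd
      obtain ⟨S, h1, h2, h3⟩ := ih (by omega)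
      obtain ⟨p, hp⟩ : ∃ p, k - (d + 1) = p + 1 := ⟨k - (d + 1) - 1, by omega⟩
      obtain ⟨S', g1, g2, g3, g4⟩ := push (p := p) hL (by omega) hr h1 h2
      refine ⟨S', g1, fun S'' h => g2.trans (h2 S'' h), fun i hi hi' => ?_⟩
      by_cases e : i = p + 1
      · rw [e]
        exact g3
      · rw [g4 i (by omega)]
        exact h3 i (by omega) hi'
  obtain ⟨S, h1, h2, h3⟩ := T (k - 1) (by omega)
  have h3' : ∀ i, 1 ≤ i → i < k → S i = ∅ := fun i hi hi' => h3 i (by omega) hi'
  refine ⟨L 0 \ S 0, sdiff_subset, ?_⟩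
  have hreach : ∀ i, i < k → reach B L S i = img B L (L 0 \ S 0) i := by
    intro i
    induction i with
    | zero => intro _; rfl
    | succ i ih =>
      intro hi
      rw [reach, img, ih (by omega), h3' (i + 1) (by omega) hi, sdiff_empty]
  have hk' : img B L (L 0 \ S 0) k ⊆ S k := by
    obtain ⟨m, hm⟩ : ∃ m, k = m + 1 := ⟨k - 1, by omega⟩
    intro y hy
    by_contra hcon
    have : y ∈ reach B L S k := by
      rw [hm] at hy hcon ⊢
      rw [reach, mem_sdiff, hreach m (by omega)]
      exact ⟨hy, hcon⟩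
    rw [h1] at this
    simp at this
  have hw : ((S 0).card : ℝ) + r ^ k * ((S k).card : ℝ) ≤ wt k r S := by
    unfold wt
    have : ({0, k} : Finset ℕ) ⊆ range (k + 1) := by
      intro i hi
      rw [mem_insert, mem_singleton] at hi
      rw [mem_range]
      omega
    refine le_trans (le_of_eq ?_) (sum_le_sum_of_subset_of_nonneg this fun i _ _ =>
      mul_nonneg (pow_pos hr i).le (Nat.cast_nonneg _))
    rw [sum_pair (by omega)]
    simp
  -- the level `j` separates
  have hlev : wt k r S ≤ r ^ j * ((L j).card : ℝ) := by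
    have hsep : Sep B L k (fun i => if i = j then L j else ∅) := by
      have h0 : reach B L (fun i => if i = j then L j else ∅) j = ∅ := by
        rw [eq_empty_iff_forall_notMem]
        intro y hy
        have := reach_sub hy
        simp only [if_true] at this
        exact this.2 this.1
      have h4 : ∀ i, j ≤ i → reach B L (fun i => if i = j then L j else ∅) i = ∅ := by
        intro i hi
        induction i, hi using Nat.le_induction with
        | base => exact h0
        | succ i hi ih =>
          rw [reach, ih, eq_empty_iff_forall_notMem]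
          intro y hy
          rw [mem_sdiff, mem_nxt] at hy
          obtain ⟨⟨_, x, hx, _⟩, _⟩ := hy
          simp at hx
      exact h4 k hj
    refine (h2 _ hsep).trans (le_of_eq ?_)
    unfold wt
    rw [sum_eq_single j]
    · simp
    · intro i _ hi
      simp [hi]
    · intro h
      exact absurd (mem_range.2 (by omega)) h
  have h5 : ((L 0 \ (L 0 \ S 0)).card : ℝ) ≤ (S 0).card := by
    rw [sdiff_sdiff_right_self]
    exact_mod_cast card_le_card inter_subset_right
  have h6 : ((img B L (L 0 \ S 0) k).card : ℝ) ≤ (S k).card := by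
    exact_mod_cast card_le_card hk'
  have h7 := mul_le_mul_of_nonneg_left h6 (pow_pos hr k).le
  linarith

end Pool.Agent.PlunTwo
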