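import Mathlib

/-!
# Finite two-dimensional Schnirelmann density on two rows
-/

set_option autoImplicit false

open Finset Classical

namespace Pool.Agent.PlunTwo

/-- The two rows `{0, …, N} × {0, 1}`. -/
def Rows (N : ℕ) : Set (ℕ × ℕ) := {x | x.1 ≤ N ∧ x.2 ≤ 1}

/-- The sumset `A + B`. -/
def msum (A B : Set (ℕ × ℕ)) : Set (ℕ × ℕ) := {x | ∃ a ∈ A, ∃ b ∈ B, a + b = x}

/-- The sumset `k B = B + … + B` with `k` summands. -/
def kfold (B : Set (ℕ × ℕ)) : ℕ → Set (ℕ × ℕ)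
  | 0 => {0}
  | k + 1 => msum (kfold B k) B

/-- The box `[0, n] × [0, m]`. -/
def box (n m : ℕ) : Finset (ℕ × ℕ) := range (n + 1) ×ˢ range (m + 1)

/-- The density `σ_N`: the least value of `|A ∩ ([0, n] × [0, m])| / ((n + 1) (m + 1))` for
`n ≤ N` and `m ≤ 1`. -/
noncomputable def sigma (N : ℕ) (A : Set (ℕ × ℕ)) : ℝ :=
  (range (N + 1) ×ˢ range 2).inf' ⟨(0, 0), by simp⟩ fun p =>
    (((box p.1 p.2).filter fun x => x ∈ A).card : ℝ) / (((p.1 : ℝ) + 1) * ((p.2 : ℝ) + 1))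

/-- `|A ∩ ([0, l) × {j})|`, the number of points of `A` among the first `l` points of the row
`j`. -/
noncomputable def row (j : ℕ) (A : Set (ℕ × ℕ)) (l : ℕ) : ℕ :=
  ((range l).filter fun x => (x, j) ∈ A).card

/-- The set `A` contains at least `c * (a + b)` points of every staircase
`[0, a) × {0} ∪ [0, b) × {1}` with `b ≤ a ≤ N + 1`. -/
def OnStairs (N : ℕ) (A : Set (ℕ × ℕ)) (c : ℝ) : Prop :=
  ∀ a ≤ N + 1, ∀ b ≤ a, c * ((a : ℝ) + b) ≤ (row 0 A a : ℝ) + row 1 A b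

/-- The set `A` contains at least `c * l` of the first `l` points of the row `0`, for
`l ≤ N + 1`. -/
def OnFirst (N : ℕ) (A : Set (ℕ × ℕ)) (c : ℝ) : Prop :=
  ∀ l ≤ N + 1, c * (l : ℝ) ≤ row 0 A l

/-- The factor `(λ ((2 - λ - s (1 - λ)) / λ) ^ θ + (2 - 2 λ) (s / 2) ^ θ) / (2 - λ)`. -/
noncomputable def factor (lam s θ : ℝ) : ℝ :=
  (lam * ((2 - lam - s * (1 - lam)) / lam) ^ θ + (2 - 2 * lam) * (s / 2) ^ θ) / (2 - lam)

end Pool.Agent.PlunTwo
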