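import Pool.Agent.PlunTwo.TwoRow

/-!
# The two-row inequality up to a constant, and its exact cases
-/

set_option autoImplicit false

open Finset Classical

namespace Pool.Agent.PlunTwo

/-- The general bound with two slopes. -/
theorem two_rows_two {N n j k : ℕ} (hj : 0 < j) (hk : j < k) (hn : n ≤ N) (A B : Set (ℕ × ℕ))
    {α β lam s : ℝ} (hα : 0 < α) (hβ : 0 < β) (hl0 : 0 < lam) (hl1 : lam ≤ 1) (hs1 : 1 ≤ s)
    (hs2 : s < 2)
    (h1 : ∀ a ≤ N + 1, ∀ b ≤ a, lam * α * ((a : ℝ) + b) ≤ (row 0 A a : ℝ) + row 1 A b)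
    (h1' : ∀ l ≤ N + 1, α * (2 * (l : ℝ)) ≤ (row 0 A l : ℝ) + row 1 A l)
    (h2 : ∀ l ≤ N + 1, s * β * (l : ℝ) ≤ row 0 (kfold B k) l)
    (h2' : ∀ l ≤ N + 1, β * (2 * (l : ℝ)) ≤ (row 0 (kfold B k) l : ℝ) + row 1 (kfold B k) l) :
    factor lam s ((j : ℝ) / k) * (α ^ (1 - (j : ℝ) / k) * β ^ ((j : ℝ) / k)) *
      (2 * ((n : ℝ) + 1)) ≤
      (row 0 (msum A (kfold B j)) (n + 1) : ℝ) + row 1 (msum A (kfold B j)) (n + 1) := by
  obtain ⟨hθ0, hθ1⟩ := theta_pos hj hk
  set θ : ℝ := (j : ℝ) / k with hθ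
  set m : ℝ := (2 - lam - s * (1 - lam)) / lam with hm
  set t₁ : ℝ := s / 2 * (β / α) with ht₁
  set t₂ : ℝ := m * (β / α) with ht₂
  have ht : 0 < β / α := div_pos hβ hα
  have hm' : m = (s - 1) + (2 - s) / lam := by
    rw [hm]
    field_simp
    ring
  have hq : 0 < (2 - s) / lam := div_pos (by linarith) hl0
  have hms : m - s / 2 = (2 - s) * (2 - lam) / (2 * lam) := by
    rw [hm]
    field_simp
    ring
  have hms0 : 0 < m - s / 2 := by
    rw [hms]
    exact div_pos (mul_pos (by linarith) (by linarith)) (by linarith)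
  have hm1 : 1 ≤ m := by
    rw [hm']
    have : 2 - s ≤ (2 - s) / lam := by
      rw [le_div_iff₀ hl0]
      nlinarith
    linarith
  have hp₁ : 0 < t₁ := mul_pos (by linarith) ht
  have hd : t₂ - t₁ = (2 - s) * (2 - lam) / (2 * lam) * (β / α) := by
    rw [ht₁, ht₂, ← sub_mul, hms]
  have hp₂ : t₁ < t₂ := by
    have : 0 < t₂ - t₁ := by
      rw [hd, ← hms]
      exact mul_pos hms0 ht
    linarith
  obtain ⟨ha₁, ha₂, hconc⟩ := two_slopes hθ0 hθ1.le hp₁ hp₂
  have hL : (0 : ℝ) < (n : ℝ) + 1 := by positivity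
  -- the data of a cut
  have hcut : ∀ Z ⊆ lev (box n 1) A B 0,
      s * β * ((n : ℝ) + 1) ≤ t₁ * ((lev (box n 1) A B 0 \ Z).card : ℝ) +
        ((img ((box n 1).filter fun x => x ∈ B) (lev (box n 1) A B) Z k).card : ℝ) ∧
      β * (2 * ((n : ℝ) + 1)) ≤ t₂ * ((lev (box n 1) A B 0 \ Z).card : ℝ) +
        ((img ((box n 1).filter fun x => x ∈ B) (lev (box n 1) A B) Z k).card : ℝ) := by
    intro Z hZ
    obtain ⟨a, ha, b, hb, hX, hI1, hI2⟩ := data_two k hZ
    set X : ℝ := ((lev (box n 1) A B 0 \ Z).card : ℝ) with hXdef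
    set I : ℝ := ((img ((box n 1).filter fun x => x ∈ B) (lev (box n 1) A B) Z k).card : ℝ)
      with hIdef
    have hX' : (row 0 A a : ℝ) + row 1 A b ≤ X := by
      rw [hXdef]
      exact_mod_cast hX
    have hI1' : (row 0 (kfold B k) (n + 1 - a) : ℝ) + row 0 (kfold B k) (n + 1 - b) ≤ I := by
      rw [hIdef]
      exact_mod_cast hI1
    have hI2' : (row 0 (kfold B k) (n + 1 - a) : ℝ) + row 1 (kfold B k) (n + 1 - a) ≤ I := by
      rw [hIdef]
      exact_mod_cast hI2
    have haR : (a : ℝ) ≤ (n : ℝ) + 1 := by exact_mod_cast ha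
    have hbR : (b : ℝ) ≤ (n : ℝ) + 1 := by exact_mod_cast hb
    have ha0 : (0 : ℝ) ≤ a := Nat.cast_nonneg a
    have hb0 : (0 : ℝ) ≤ b := Nat.cast_nonneg b
    have q1 := h2 (n + 1 - a) (by omega)
    have q2 := h2 (n + 1 - b) (by omega)
    have q3 := h2' (n + 1 - a) (by omega)
    rw [Nat.cast_sub ha] at q1 q3
    rw [Nat.cast_sub hb] at q2
    push_cast at q1 q2 q3
    have hβa : β * (a : ℝ) ≤ β * ((n : ℝ) + 1) := mul_le_mul_of_nonneg_left haR hβ.le
    have hβa0 : 0 ≤ β * (a : ℝ) := mul_nonneg hβ.le ha0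
    have hX0 : 0 ≤ X := by
      rw [hXdef]
      exact Nat.cast_nonneg _
    rcases le_total a b with hab | hab
    · -- the missed part contains a box
      have r1 : (row 1 A a : ℝ) ≤ row 1 A b := by exact_mod_cast row_mono 1 A hab
      have r2 := h1' a (by omega)
      have hXa : α * (2 * (a : ℝ)) ≤ X := by linarith
      have e1 : t₁ * (α * (2 * (a : ℝ))) = s * (β * a) := by
        rw [ht₁]
        field_simp
      have e2 : β / α * (α * (2 * (a : ℝ))) = 2 * (β * a) := by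
        field_simp
      have s1 := mul_le_mul_of_nonneg_left hXa hp₁.le
      have s2 := mul_le_mul_of_nonneg_left hXa ht.le
      rw [e1] at s1
      rw [e2] at s2
      have s3 : β / α * X ≤ t₂ * X := by
        refine mul_le_mul_of_nonneg_right ?_ hX0
        rw [ht₂]
        nlinarith
      have s4 : s * (β * ((n : ℝ) + 1 - a)) ≤ 2 * (β * ((n : ℝ) + 1 - a)) :=
        mul_le_mul_of_nonneg_right (by linarith) (mul_nonneg hβ.le (by linarith))
      constructor
      · nlinarith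
      · nlinarith
    · have r1 : (row 0 A b : ℝ) ≤ row 0 A a := by exact_mod_cast row_mono 0 A hab
      have r2 := h1' b (by omega)
      have r3 := h1 a (by omega) b hab
      have hXb : α * (2 * (b : ℝ)) ≤ X := by linarith
      have hXa : lam * α * ((a : ℝ) + b) ≤ X := by linarith
      have e1 : t₁ * (α * (2 * (b : ℝ))) = s * (β * b) := by
        rw [ht₁]
        field_simp
      have e2 : (s - 1) * (β / α) * (α * (2 * (b : ℝ))) = 2 * (s - 1) * (β * b) := by
        field_simp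
      have e3 : (2 - s) / lam * (β / α) * (lam * α * ((a : ℝ) + b)) =
          (2 - s) * (β * a + β * b) := by
        field_simp
      have s1 := mul_le_mul_of_nonneg_left hXb hp₁.le
      have s2 := mul_le_mul_of_nonneg_left hXb
        (show 0 ≤ (s - 1) * (β / α) from mul_nonneg (by linarith) ht.le)
      have s3 := mul_le_mul_of_nonneg_left hXa
        (show 0 ≤ (2 - s) / lam * (β / α) from mul_nonneg hq.le ht.le)
      rw [e1] at s1
      rw [e2] at s2
      rw [e3] at s3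
      have e4 : t₂ * X = (s - 1) * (β / α) * X + (2 - s) / lam * (β / α) * X := by
        rw [ht₂, hm']
        ring
      have s5 : s * (β * a) ≤ s * (β * ((n : ℝ) + 1)) :=
        mul_le_mul_of_nonneg_left hβa (by linarith)
      have s6 : (s - 1) * (β * a) ≤ (s - 1) * (β * ((n : ℝ) + 1)) :=
        mul_le_mul_of_nonneg_left hβa (by linarith)
      constructor
      · nlinarith
      · rw [e4]
        nlinarith
  have key := path_bound (B := (box n 1).filter fun x => x ∈ B) (k := k) (j := j) (by omega)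
    hk.le hj ha₁ ha₂ hconc _ (lev (box n 1) A B) le_rfl (conv_lev (down_box n 1) A B)
    (s * β * ((n : ℝ) + 1)) (β * (2 * ((n : ℝ) + 1))) (fun Z hZ => (hcut Z hZ).1)
    (fun Z hZ => (hcut Z hZ).2)
  have e : ((lev (box n 1) A B j).card : ℝ) = (row 0 (msum A (kfold B j)) (n + 1) : ℝ) +
      row 1 (msum A (kfold B j)) (n + 1) := by
    rw [lev, cnt_one]
    push_cast
    ring
  rw [e] at key
  refine le_trans (le_of_eq ?_) key
  have p1 : t₁ ^ θ = (s / 2) ^ θ * (β / α) ^ θ := Real.mul_rpow (by linarith) ht.le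
  have p2 : t₂ ^ θ = m ^ θ * (β / α) ^ θ := Real.mul_rpow (by linarith) ht.le
  have hl2 : 2 - lam ≠ 0 := by
    intro h
    linarith
  have hs2' : 2 - s ≠ 0 := by
    intro h
    linarith
  have hs0 : s ≠ 0 := by
    intro h
    linarith
  rw [hd, factor, ← alpha_mul hα hβ, p1, p2, ht₁, ← hm]
  field_simp
  ring

/-- Two rows, when the first row of `k B` has density `2 β`. -/
theorem two_rows_first {N n j k : ℕ} (hj : 0 < j) (hk : j < k) (hn : n ≤ N)
    (A B : Set (ℕ × ℕ)) {α β : ℝ} (hα : 0 < α) (hβ : 0 < β)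
    (h1 : ∀ l ≤ N + 1, α * (2 * (l : ℝ)) ≤ (row 0 A l : ℝ) + row 1 A l)
    (h2 : ∀ l ≤ N + 1, β * (2 * (l : ℝ)) ≤ row 0 (kfold B k) l) :
    α ^ (1 - (j : ℝ) / k) * β ^ ((j : ℝ) / k) * (2 * ((n : ℝ) + 1)) ≤
      (row 0 (msum A (kfold B j)) (n + 1) : ℝ) + row 1 (msum A (kfold B j)) (n + 1) := by
  have ht : 0 < β / α := div_pos hβ hα
  have key := two_rows_one (n := n) hj hk A B (t := β / α) (c := β * (2 * ((n : ℝ) + 1))) ht ?_
  · refine le_trans (le_of_eq ?_) key
    rw [← alpha_mul hα hβ, Real.rpow_sub_one ht.ne']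
    field_simp
  · intro Z hZ
    obtain ⟨a, ha, b, hb, hX, hI1, hI2⟩ := data_two k hZ
    set X : ℝ := ((lev (box n 1) A B 0 \ Z).card : ℝ) with hXdef
    set I : ℝ := ((img ((box n 1).filter fun x => x ∈ B) (lev (box n 1) A B) Z k).card : ℝ)
      with hIdef
    have hX' : (row 0 A a : ℝ) + row 1 A b ≤ X := by
      rw [hXdef]
      exact_mod_cast hX
    have hI1' : (row 0 (kfold B k) (n + 1 - a) : ℝ) + row 0 (kfold B k) (n + 1 - b) ≤ I := by
      rw [hIdef]
      exact_mod_cast hI1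
    have haR : (a : ℝ) ≤ (n : ℝ) + 1 := by exact_mod_cast ha
    have hbR : (b : ℝ) ≤ (n : ℝ) + 1 := by exact_mod_cast hb
    have q1 := h2 (n + 1 - a) (by omega)
    have q2 := h2 (n + 1 - b) (by omega)
    rw [Nat.cast_sub ha] at q1
    rw [Nat.cast_sub hb] at q2
    push_cast at q1 q2
    have hβa : β * (a : ℝ) ≤ β * ((n : ℝ) + 1) := mul_le_mul_of_nonneg_left haR hβ.le
    have hβb : β * (b : ℝ) ≤ β * ((n : ℝ) + 1) := mul_le_mul_of_nonneg_left hbR hβ.le
    rcases le_total a b with hab | hab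
    · have r1 : (row 1 A a : ℝ) ≤ row 1 A b := by exact_mod_cast row_mono 1 A hab
      have r2 := h1 a (by omega)
      have hXa : α * (2 * (a : ℝ)) ≤ X := by linarith
      have s1 := mul_le_mul_of_nonneg_left hXa ht.le
      have e1 : β / α * (α * (2 * (a : ℝ))) = 2 * (β * a) := by
        field_simp
      rw [e1] at s1
      linarith
    · have r1 : (row 0 A b : ℝ) ≤ row 0 A a := by exact_mod_cast row_mono 0 A hab
      have r2 := h1 b (by omega)
      have hXa : α * (2 * (b : ℝ)) ≤ X := by linarith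
      have s1 := mul_le_mul_of_nonneg_left hXa ht.le
      have e1 : β / α * (α * (2 * (b : ℝ))) = 2 * (β * b) := by
        field_simp
      rw [e1] at s1
      linarith

end Pool.Agent.PlunTwo
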