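import Pool.Agent.PlunTwo.Cut

/-!
# The path bound: Plünnecke's inequality along the chain of least ratios
-/

set_option autoImplicit false
set_option linter.unusedSectionVars false

open Finset

namespace Pool.Agent.PlunTwo

variable {M : Type} [AddCancelCommMonoid M] [DecidableEq M]

theorem img_mono {B : Finset M} {L : ℕ → Finset M} {Z Z' : Finset M} (h : Z ⊆ Z') (i : ℕ) :
    img B L Z i ⊆ img B L Z' i := by
  induction i with
  | zero => exact h
  | succ i ih => exact nxt_mono ih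

theorem img_sub {B : Finset M} {L : ℕ → Finset M} {Z : Finset M} (h : Z ⊆ L 0) (i : ℕ) :
    img B L Z i ⊆ L i := by
  cases i with
  | zero => exact h
  | succ i => exact nxt_sub

/-- The levels reached from `Z` form a commutative graph. -/
theorem conv_img {B : Finset M} {L : ℕ → Finset M} (hL : Conv B L) {Z : Finset M}
    (hZ : Z ⊆ L 0) : Conv B (img B L Z) := by
  intro i x hx b hb b' hb' h
  rw [img, mem_nxt]
  exact ⟨hL i x (img_sub hZ i hx) b hb b' hb' (img_sub hZ (i + 2) h), x, hx, b, hb, rfl⟩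

theorem img_img {B : Finset M} {L : ℕ → Finset M} {Z Z' : Finset M} (h : Z' ⊆ Z) (i : ℕ) :
    img B (img B L Z) Z' i = img B L Z' i := by
  induction i with
  | zero => rfl
  | succ i ih =>
    change nxt B (img B (img B L Z) Z' i) (nxt B (img B L Z i) (L (i + 1))) =
      nxt B (img B L Z' i) (L (i + 1))
    rw [ih]
    refine Subset.antisymm (fun y hy => ?_) fun y hy => ?_
    · rw [mem_nxt] at hy ⊢
      exact ⟨nxt_sub hy.1, hy.2⟩
    · rw [mem_nxt] at hy ⊢
      refine ⟨?_, hy.2⟩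
      rw [mem_nxt]
      obtain ⟨h1, x, hx, b, hb, e⟩ := hy
      exact ⟨h1, x, img_mono h i hx, b, hb, e⟩

/-- The levels outside of the levels reached from `Z` form a commutative graph. -/
theorem conv_rest {B : Finset M} {L : ℕ → Finset M} (hL : Conv B L) (Z : Finset M) :
    Conv B (fun i => L i \ img B L Z i) := by
  intro i x hx b hb b' hb' h
  simp only [mem_sdiff] at hx h ⊢
  have h1 := hL i x hx.1 b hb b' hb' h.1
  refine ⟨h1, fun hcon => h.2 ?_⟩
  rw [show i + 2 = (i + 1) + 1 from rfl, img, mem_nxt]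
  exact ⟨h.1, x + b, hcon, b', hb', rfl⟩

theorem img_union_sub {B : Finset M} {L : ℕ → Finset M} {Z Z' : Finset M} (i : ℕ) :
    img B L (Z' ∪ Z) i ⊆ img B L Z i ∪ img B (fun i => L i \ img B L Z i) Z' i := by
  induction i with
  | zero =>
    intro x hx
    simp only [img, mem_union] at hx ⊢
    tauto
  | succ i ih =>
    intro y hy
    rw [img, mem_nxt] at hy
    obtain ⟨h1, x, hx, b, hb, e⟩ := hy
    rw [mem_union]
    by_cases hcon : y ∈ img B L Z (i + 1)
    · exact Or.inl hcon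
    · right
      rw [img, mem_nxt, mem_sdiff]
      refine ⟨⟨h1, hcon⟩, x, ?_, b, hb, e⟩
      rcases mem_union.1 (ih hx) with h | h
      · exfalso
        apply hcon
        rw [img, mem_nxt]
        exact ⟨h1, x, h, b, hb, e⟩
      · exact h

/-- Plünnecke's inequality for a set of least ratio. -/
theorem plunnecke {B : Finset M} {L : ℕ → Finset M} (hL : Conv B L) {k j : ℕ} (hk : 0 < k)
    (hj : j ≤ k) (hj0 : 0 < j) {Z : Finset M} (hZ : Z ⊆ L 0) {lam : ℝ} (h0 : 0 ≤ lam)
    (hmin : ∀ Z' ⊆ Z, lam * (Z'.card : ℝ) ≤ ((img B L Z' k).card : ℝ)) :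
    lam ^ ((j : ℝ) / k) * (Z.card : ℝ) ≤ ((img B L Z j).card : ℝ) := by
  have hkR : (0 : ℝ) < k := by exact_mod_cast hk
  have hjR : (0 : ℝ) < j := by exact_mod_cast hj0
  rcases h0.eq_or_lt with h | h
  · rw [← h, Real.zero_rpow (div_pos hjR hkR).ne', zero_mul]
    exact Nat.cast_nonneg _
  · -- `r ^ k = 1 / lam`
    set r : ℝ := lam ^ (-(1 / (k : ℝ))) with hr
    have hr0 : 0 < r := Real.rpow_pos_of_pos h _
    have hrk : r ^ k = lam⁻¹ := by
      rw [hr, ← Real.rpow_natCast, ← Real.rpow_mul h.le]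
      rw [show -(1 / (k : ℝ)) * (k : ℝ) = -1 by field_simp]
      exact Real.rpow_neg_one lam
    have hrj : r ^ j = (lam ^ ((j : ℝ) / k))⁻¹ := by
      rw [hr, ← Real.rpow_natCast, ← Real.rpow_mul h.le, ← Real.rpow_neg h.le]
      congr 1
      field_simp
    obtain ⟨Z', hZ', h1⟩ := cut (conv_img hL hZ) hk hj hr0
    change Z' ⊆ Z at hZ'
    rw [img_img hZ', hrk, hrj] at h1
    have h2 := hmin Z' hZ'
    have h3 : (Z'.card : ℝ) ≤ lam⁻¹ * ((img B L Z' k).card : ℝ) := by
      have := mul_le_mul_of_nonneg_left h2 (inv_pos.2 h).le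
      rwa [← mul_assoc, inv_mul_cancel₀ h.ne', one_mul] at this
    have h4 : ((img B L Z 0 \ Z').card : ℝ) = Z.card - Z'.card := by
      change ((Z \ Z').card : ℝ) = _
      exact cast_card_sdiff hZ'
    rw [h4] at h1
    have h5 : (Z.card : ℝ) ≤ (lam ^ ((j : ℝ) / k))⁻¹ * ((img B L Z j).card : ℝ) := by linarith
    have h6 : (0 : ℝ) < lam ^ ((j : ℝ) / k) := Real.rpow_pos_of_pos h _
    have := mul_le_mul_of_nonneg_left h5 h6.le
    rwa [← mul_assoc, mul_inv_cancel₀ h6.ne', one_mul] at this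

/-- **The path bound.** If `a₁ min(x, t₁) + a₂ min(x, t₂) ≤ x ^ (j / k)` for all `x ≥ 0` then the
cuts with the weights `t₁` and `t₂` bound the size of the level `j`. -/
theorem path_bound {B : Finset M} {k j : ℕ} (hk : 0 < k) (hj : j ≤ k) (hj0 : 0 < j)
    {a₁ a₂ t₁ t₂ : ℝ} (ha₁ : 0 ≤ a₁) (ha₂ : 0 ≤ a₂) 
    (ht : ∀ x : ℝ, 0 ≤ x → a₁ * min x t₁ + a₂ * min x t₂ ≤ x ^ ((j : ℝ) / k)) :
    ∀ (n : ℕ) (L : ℕ → Finset M), (L 0).card ≤ n → Conv B L → ∀ c₁ c₂ : ℝ,
      (∀ Z ⊆ L 0, c₁ ≤ t₁ * ((L 0 \ Z).card : ℝ) + ((img B L Z k).card : ℝ)) →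
      (∀ Z ⊆ L 0, c₂ ≤ t₂ * ((L 0 \ Z).card : ℝ) + ((img B L Z k).card : ℝ)) →
      a₁ * c₁ + a₂ * c₂ ≤ ((L j).card : ℝ) := by
  classical
  intro n
  induction n with
  | zero =>
    intro L hn hL c₁ c₂ h₁ h₂
    have h0 : L 0 = ∅ := card_eq_zero.1 (by omega)
    have himg : ∀ i, img B L ∅ i = ∅ := by
      intro i
      induction i with
      | zero => rfl
      | succ i ih =>
        rw [img, ih, eq_empty_iff_forall_notMem]
        intro y hy
        rw [mem_nxt] at hy
        obtain ⟨_, x, hx, _⟩ := hy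
        simp at hx
    have e1 := h₁ ∅ (empty_subset _)
    have e2 := h₂ ∅ (empty_subset _)
    rw [himg, h0] at e1 e2
    simp only [sdiff_empty, card_empty, Nat.cast_zero, mul_zero, add_zero] at e1 e2
    have := mul_nonneg ha₁ (neg_nonneg.2 e1)
    have := mul_nonneg ha₂ (neg_nonneg.2 e2)
    have : (0 : ℝ) ≤ ((L j).card : ℝ) := Nat.cast_nonneg _
    linarith
  | succ n ih =>
    intro L hn hL c₁ c₂ h₁ h₂
    by_cases hne : (L 0).card ≤ n
    · exact ih L hne hL c₁ c₂ h₁ h₂
    have hL0 : (L 0).Nonempty := card_pos.1 (by omega)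
    -- the set of least ratio
    obtain ⟨Z, hZ, hmin⟩ := exists_min_image ((L 0).powerset.filter fun Z => Z.Nonempty)
      (fun Z => ((img B L Z k).card : ℝ) / (Z.card : ℝ))
      ⟨L 0, mem_filter.2 ⟨mem_powerset.2 (Subset.refl _), hL0⟩⟩
    rw [mem_filter, mem_powerset] at hZ
    obtain ⟨hZ, hZne⟩ := hZ
    have hZc : (0 : ℝ) < (Z.card : ℝ) := by exact_mod_cast card_pos.2 hZne
    set lam : ℝ := ((img B L Z k).card : ℝ) / (Z.card : ℝ) with hlam
    have hlam0 : 0 ≤ lam := div_nonneg (Nat.cast_nonneg _) hZc.le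
    have hlamZ : ((img B L Z k).card : ℝ) = lam * (Z.card : ℝ) := by
      rw [hlam]
      field_simp
    have hmin' : ∀ Z' ⊆ L 0, lam * (Z'.card : ℝ) ≤ ((img B L Z' k).card : ℝ) := by
      intro Z' hZ'
      rcases Z'.eq_empty_or_nonempty with h | h
      · rw [h]
        simp
      · have h1 := hmin Z' (mem_filter.2 ⟨mem_powerset.2 hZ', h⟩)
        have h2 : (0 : ℝ) < (Z'.card : ℝ) := by exact_mod_cast card_pos.2 h
        exact (le_div_iff₀ h2).1 h1
    have hP := plunnecke hL hk hj hj0 hZ hlam0 fun Z' hZ' => hmin' Z' (hZ'.trans hZ)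
    -- the rest
    set L' : ℕ → Finset M := fun i => L i \ img B L Z i with hL'
    have hrest : ∀ Z' ⊆ L' 0, ((img B L (Z' ∪ Z) k).card : ℝ) ≤
        lam * (Z.card : ℝ) + ((img B L' Z' k).card : ℝ) := by
      intro Z' _
      rw [← hlamZ]
      exact_mod_cast (card_le_card (img_union_sub k)).trans (card_union_le _ _)
    have hsub : ∀ Z' ⊆ L' 0, Z' ∪ Z ⊆ L 0 := fun Z' hZ' =>
      union_subset (hZ'.trans sdiff_subset) hZ
    have hdis : ∀ Z' ⊆ L' 0, Disjoint Z' Z := by
      intro Z' hZ'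
      rw [disjoint_left]
      intro x hx hxZ
      have := hZ' hx
      simp only [hL', mem_sdiff] at this
      exact this.2 hxZ
    have hratio : ∀ Z' ⊆ L' 0, lam * (Z'.card : ℝ) ≤ ((img B L' Z' k).card : ℝ) := by
      intro Z' hZ'
      have e1 := hmin' _ (hsub Z' hZ')
      have e2 := hrest Z' hZ'
      rw [card_union_of_disjoint (hdis Z' hZ')] at e1
      push_cast at e1
      linarith
    have hc0 : ((L' 0).card : ℝ) = (L 0).card - Z.card := by
      change ((L 0 \ Z).card : ℝ) = _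
      exact cast_card_sdiff hZ
    have hstep : ∀ t c : ℝ, 
        (∀ Z ⊆ L 0, c ≤ t * ((L 0 \ Z).card : ℝ) + ((img B L Z k).card : ℝ)) →
        ∀ Z' ⊆ L' 0, c - min lam t * (Z.card : ℝ) ≤
          t * ((L' 0 \ Z').card : ℝ) + ((img B L' Z' k).card : ℝ) := by
      intro t c hc Z' hZ'
      have e0 : ((L' 0 \ Z').card : ℝ) = (L 0).card - Z.card - Z'.card := by
        rw [cast_card_sdiff hZ', hc0]
      have e4 : (0 : ℝ) ≤ ((L' 0 \ Z').card : ℝ) := Nat.cast_nonneg _
      rcases le_total lam t with h | h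
      · rw [min_eq_left h]
        have e1 := hc _ (hsub Z' hZ')
        rw [cast_card_sdiff (hsub Z' hZ'), card_union_of_disjoint (hdis Z' hZ')] at e1
        push_cast at e1
        have e2 := hrest Z' hZ'
        rw [e0]
        linarith
      · rw [min_eq_right h]
        have e1 := hc ∅ (empty_subset _)
        have himg : ∀ i, img B L ∅ i = ∅ := by
          intro i
          induction i with
          | zero => rfl
          | succ i ih =>
            rw [img, ih, eq_empty_iff_forall_notMem]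
            intro y hy
            rw [mem_nxt] at hy
            obtain ⟨_, x, hx, _⟩ := hy
            simp at hx
        rw [himg, sdiff_empty, card_empty, Nat.cast_zero, add_zero] at e1
        have e2 := hratio Z' hZ'
        have e3 := mul_le_mul_of_nonneg_right h (Nat.cast_nonneg Z'.card : (0:ℝ) ≤ _)
        rw [e0]
        linarith
    have hIH := ih L' (by
        have : (L' 0).card = (L 0).card - Z.card := card_sdiff_of_subset hZ
        have := card_pos.2 hZne
        omega)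
      (conv_rest hL Z) _ _ (hstep t₁ c₁ h₁) (hstep t₂ c₂ h₂)
    have hcard : ((L j).card : ℝ) = ((img B L Z j).card : ℝ) + ((L' j).card : ℝ) := by
      change _ = _ + ((L j \ img B L Z j).card : ℝ)
      rw [cast_card_sdiff (img_sub hZ j)]
      ring
    have hconc := mul_le_mul_of_nonneg_right (ht lam hlam0) hZc.le
    rw [hcard]
    have : a₁ * c₁ + a₂ * c₂ = (a₁ * min lam t₁ + a₂ * min lam t₂) * (Z.card : ℝ) +
        (a₁ * (c₁ - min lam t₁ * (Z.card : ℝ)) + a₂ * (c₂ - min lam t₂ * (Z.card : ℝ))) := by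
      ring
    linarith

end Pool.Agent.PlunTwo
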