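import Pool.Agent.PlunTwo.Path
import Pool.Agent.PlunTwo.Defs

/-!
# The layered graph of a truncated sumset
-/

set_option autoImplicit false

open Finset Classical

namespace Pool.Agent.PlunTwo

theorem box_card (n m : ℕ) (P : ℕ × ℕ → Prop) [DecidablePred P] :
    ((box n m).filter P).card =
      ∑ j ∈ range (m + 1), ((range (n + 1)).filter fun x => P (x, j)).card := by
  simp only [card_filter]
  rw [box, sum_product_right]

theorem cnt_zero (A : Set (ℕ × ℕ)) (n : ℕ) :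
    ((box n 0).filter fun x => x ∈ A).card = row 0 A (n + 1) := by
  rw [box_card]
  simp [row]

theorem cnt_one (A : Set (ℕ × ℕ)) (n : ℕ) :
    ((box n 1).filter fun x => x ∈ A).card = row 0 A (n + 1) + row 1 A (n + 1) := by
  rw [box_card, sum_range_succ, sum_range_one]
  rfl

theorem row_mono (j : ℕ) (A : Set (ℕ × ℕ)) {l l' : ℕ} (h : l ≤ l') : row j A l ≤ row j A l' := by
  refine card_le_card fun x hx => ?_
  rw [mem_filter, mem_range] at hx ⊢
  exact ⟨by omega, hx.2⟩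

theorem sigma_le (N : ℕ) (A : Set (ℕ × ℕ)) {n m : ℕ} (hn : n ≤ N) (hm : m ≤ 1) :
    sigma N A * (((n : ℝ) + 1) * ((m : ℝ) + 1)) ≤ ((box n m).filter fun x => x ∈ A).card := by
  have h : sigma N A ≤ (((box n m).filter fun x => x ∈ A).card : ℝ) /
      (((n : ℝ) + 1) * ((m : ℝ) + 1)) := by
    have := inf'_le (f := fun p : ℕ × ℕ => (((box p.1 p.2).filter fun x => x ∈ A).card : ℝ) /
      (((p.1 : ℝ) + 1) * ((p.2 : ℝ) + 1))) (b := (n, m))
      (s := range (N + 1) ×ˢ range 2) (by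
        rw [mem_product, mem_range, mem_range]
        exact ⟨by omega, by omega⟩)
    exact this
  rwa [le_div_iff₀ (by positivity)] at h

theorem le_sigma (N : ℕ) (A : Set (ℕ × ℕ)) (c : ℝ)
    (h0 : ∀ n ≤ N, c * ((n : ℝ) + 1) ≤ row 0 A (n + 1))
    (h1 : ∀ n ≤ N, c * (2 * ((n : ℝ) + 1)) ≤ (row 0 A (n + 1) : ℝ) + row 1 A (n + 1)) :
    c ≤ sigma N A := by
  unfold sigma
  refine le_inf' _ _ ?_
  rintro ⟨n, m⟩ hp
  rw [mem_product, mem_range, mem_range] at hp
  simp only at hp ⊢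
  rw [le_div_iff₀ (by positivity)]
  obtain ⟨hn, hm⟩ := hp
  interval_cases m
  · rw [cnt_zero]
    have := h0 n (by omega)
    push_cast
    linarith
  · rw [cnt_one]
    have := h1 n (by omega)
    push_cast
    linarith

theorem sigma_nonneg (N : ℕ) (A : Set (ℕ × ℕ)) : 0 ≤ sigma N A := by
  refine le_sigma N A 0 (fun n _ => ?_) fun n _ => ?_
  · rw [zero_mul]
    positivity
  · rw [zero_mul]
    positivity

/-- The first row has density at least `σ_N`. -/
theorem row_zero_ge (N : ℕ) (A : Set (ℕ × ℕ)) {l : ℕ} (hl : l ≤ N + 1) :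
    sigma N A * (l : ℝ) ≤ row 0 A l := by
  rcases Nat.eq_zero_or_pos l with h | h
  · subst h
    simp
  · obtain ⟨n, rfl⟩ : ∃ n, l = n + 1 := ⟨l - 1, by omega⟩
    have := sigma_le N A (n := n) (m := 0) (by omega) (by omega)
    rw [cnt_zero] at this
    push_cast at this ⊢
    linarith

/-- Both rows. -/
theorem rows_ge (N : ℕ) (A : Set (ℕ × ℕ)) {l : ℕ} (hl : l ≤ N + 1) :
    sigma N A * (2 * (l : ℝ)) ≤ (row 0 A l : ℝ) + row 1 A l := by
  rcases Nat.eq_zero_or_pos l with h | h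
  · subst h
    rw [Nat.cast_zero, mul_zero, mul_zero]
    positivity
  · obtain ⟨n, rfl⟩ : ∃ n, l = n + 1 := ⟨l - 1, by omega⟩
    have := sigma_le N A (n := n) (m := 1) (by omega) (by omega)
    rw [cnt_one] at this
    push_cast at this ⊢
    linarith

/-- The levels `(A + i B) ∩ D`. -/
noncomputable def lev (D : Finset (ℕ × ℕ)) (A B : Set (ℕ × ℕ)) (i : ℕ) : Finset (ℕ × ℕ) :=
  D.filter fun x => x ∈ msum A (kfold B i)

theorem mem_lev_zero {D : Finset (ℕ × ℕ)} {A B : Set (ℕ × ℕ)} {x : ℕ × ℕ} :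
    x ∈ lev D A B 0 ↔ x ∈ D ∧ x ∈ A := by
  rw [lev, mem_filter]
  constructor
  · rintro ⟨h, a, ha, b, hb, e⟩
    have hb' : b = 0 := hb
    rw [hb', add_zero] at e
    exact ⟨h, e ▸ ha⟩
  · rintro ⟨h, ha⟩
    exact ⟨h, x, ha, 0, rfl, add_zero x⟩

theorem msum_kfold_succ {A B : Set (ℕ × ℕ)} {i : ℕ} {x b : ℕ × ℕ}
    (hx : x ∈ msum A (kfold B i)) (hb : b ∈ B) : x + b ∈ msum A (kfold B (i + 1)) := by
  obtain ⟨a, ha, w, hw, e⟩ := hx
  refine ⟨a, ha, w + b, ⟨w, hw, b, hb, rfl⟩, ?_⟩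
  rw [← e, add_assoc]

/-- The finite set is closed downwards. -/
def Down (D : Finset (ℕ × ℕ)) : Prop := ∀ x y : ℕ × ℕ, x + y ∈ D → x ∈ D

theorem down_box (n m : ℕ) : Down (box n m) := by
  intro x y h
  rw [box, mem_product, mem_range, mem_range] at h ⊢
  simp only [Prod.fst_add, Prod.snd_add] at h
  omega

theorem conv_lev {D : Finset (ℕ × ℕ)} (hD : Down D) (A B : Set (ℕ × ℕ)) :
    Conv (D.filter fun x => x ∈ B) (lev D A B) := by
  intro i x hx b hb b' _ h
  rw [lev, mem_filter] at hx h ⊢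
  rw [mem_filter] at hb
  exact ⟨hD _ _ h.1, msum_kfold_succ hx.2 hb.2⟩

theorem img_lev {D : Finset (ℕ × ℕ)} (hD : Down D) (A B : Set (ℕ × ℕ)) {Z : Finset (ℕ × ℕ)}
    (hZ : Z ⊆ lev D A B 0) (i : ℕ) {z w : ℕ × ℕ} (hz : z ∈ Z) (hw : w ∈ kfold B i)
    (h : z + w ∈ D) : z + w ∈ img (D.filter fun x => x ∈ B) (lev D A B) Z i := by
  induction i generalizing w with
  | zero =>
    have hw' : w = 0 := hw
    rw [hw', add_zero]
    exact hz
  | succ i ih =>
    obtain ⟨w', hw', b, hb, e⟩ := hw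
    subst e
    have h1 : z + w' ∈ D := by
      rw [← add_assoc] at h
      exact hD _ _ h
    have h2 : b ∈ D := by
      have : z + (w' + b) = b + (z + w') := by ring
      rw [this] at h
      exact hD _ _ h
    change _ ∈ nxt _ _ _
    rw [mem_nxt]
    refine ⟨?_, z + w', ih hw' h1, b, mem_filter.2 ⟨h2, hb⟩, by rw [add_assoc]⟩
    rw [lev, mem_filter]
    exact ⟨h, z, (mem_lev_zero.1 (hZ hz)).2, w' + b, ⟨w', hw', b, hb, rfl⟩, rfl⟩

/-- The first point of a row. -/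
theorem exists_first (P : ℕ → Prop) (l : ℕ) :
    ∃ a ≤ l, (∀ x < a, ¬ P x) ∧ (a < l → P a) := by
  by_cases h : ∃ x, x < l ∧ P x
  · refine ⟨Nat.find h, (Nat.find_spec h).1.le, fun x hx hP => ?_, fun _ => (Nat.find_spec h).2⟩
    exact Nat.find_min h hx ⟨hx.trans (Nat.find_spec h).1, hP⟩
  · push Not at h
    exact ⟨l, le_rfl, fun x hx => h x hx, fun h' => absurd h' (lt_irrefl _)⟩

theorem shift_le {P Q : ℕ → Prop} [DecidablePred P] [DecidablePred Q] {l a : ℕ} (ha : a ≤ l)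
    (h : ∀ x, x < l - a → P x → Q (a + x)) :
    ((range (l - a)).filter P).card ≤ ((range l).filter Q).card := by
  refine card_le_card_of_injOn (fun x => a + x) ?_ ?_
  · intro x hx
    rw [mem_coe, mem_filter, mem_range] at hx
    rw [mem_coe, mem_filter, mem_range]
    refine ⟨?_, h x hx.1 hx.2⟩
    change a + x < l
    omega
  · intro x _ y _ hxy
    exact Nat.add_left_cancel hxy

end Pool.Agent.PlunTwo
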