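import Pool.Agent.PlunTwo.Rows
import Pool.Agent.PlunTwo.Conc

/-!
# The lower bounds for the truncated sumset
-/

set_option autoImplicit false

open Finset Classical

namespace Pool.Agent.PlunTwo

theorem card_two {n : ℕ} {T : Finset (ℕ × ℕ)} (hT : T ⊆ box n 1) :
    T.card = ((range (n + 1)).filter fun x => (x, 0) ∈ T).card +
      ((range (n + 1)).filter fun x => (x, 1) ∈ T).card := by
  have : T = (box n 1).filter fun x => x ∈ T := by
    ext x
    rw [mem_filter]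
    exact ⟨fun h => ⟨hT h, h⟩, fun h => h.2⟩
  conv_lhs => rw [this]
  rw [box_card, sum_range_succ, sum_range_one]

theorem card_one {n : ℕ} {T : Finset (ℕ × ℕ)} (hT : T ⊆ box n 0) :
    T.card = ((range (n + 1)).filter fun x => (x, 0) ∈ T).card := by
  have : T = (box n 0).filter fun x => x ∈ T := by
    ext x
    rw [mem_filter]
    exact ⟨fun h => ⟨hT h, h⟩, fun h => h.2⟩
  conv_lhs => rw [this]
  rw [box_card]
  simp

theorem mem_box_iff {n m x j : ℕ} : (x, j) ∈ box n m ↔ x < n + 1 ∧ j < m + 1 := by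
  rw [box, mem_product, mem_range, mem_range]

theorem lev_sub {D : Finset (ℕ × ℕ)} {A B : Set (ℕ × ℕ)} (i : ℕ) : lev D A B i ⊆ D :=
  filter_subset _ _

/-- The prefix of a row which is missed by `Z`. -/
theorem prefix_le {D Z : Finset (ℕ × ℕ)} {A B : Set (ℕ × ℕ)} {l a j : ℕ} (ha : a ≤ l)
    (hD : ∀ x < l, (x, j) ∈ D) (h : ∀ x < a, (x, j) ∉ Z) :
    row j A a ≤ ((range l).filter fun x => (x, j) ∈ lev D A B 0 \ Z).card := by
  refine card_le_card fun x hx => ?_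
  rw [mem_filter, mem_range] at hx ⊢
  refine ⟨by omega, ?_⟩
  rw [mem_sdiff, mem_lev_zero]
  exact ⟨⟨hD x (by omega), hx.2⟩, h x hx.1⟩

/-- The translates inside a row. -/
theorem trans_le {n m : ℕ} {Z : Finset (ℕ × ℕ)} {A B : Set (ℕ × ℕ)} (k : ℕ)
    (hZ : Z ⊆ lev (box n m) A B 0) {a i j : ℕ} (ha : a ≤ n + 1) (hij : i + j ≤ m)
    (h : a < n + 1 → (a, i) ∈ Z) :
    row j (kfold B k) (n + 1 - a) ≤ ((range (n + 1)).filter fun x => (x, i + j) ∈
      img ((box n m).filter fun x => x ∈ B) (lev (box n m) A B) Z k).card := by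
  refine shift_le ha fun x hx hP => ?_
  have h1 : (a, i) ∈ Z := h (by omega)
  have h2 : (a + x, i + j) = (a, i) + (x, j) := rfl
  rw [h2]
  refine img_lev (down_box n m) A B hZ k h1 hP ?_
  rw [← h2, mem_box_iff]
  omega

theorem data_two {n : ℕ} {Z : Finset (ℕ × ℕ)} {A B : Set (ℕ × ℕ)} (k : ℕ)
    (hZ : Z ⊆ lev (box n 1) A B 0) :
    ∃ a ≤ n + 1, ∃ b ≤ n + 1,
      row 0 A a + row 1 A b ≤ (lev (box n 1) A B 0 \ Z).card ∧
      row 0 (kfold B k) (n + 1 - a) + row 0 (kfold B k) (n + 1 - b) ≤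
        (img ((box n 1).filter fun x => x ∈ B) (lev (box n 1) A B) Z k).card ∧
      row 0 (kfold B k) (n + 1 - a) + row 1 (kfold B k) (n + 1 - a) ≤
        (img ((box n 1).filter fun x => x ∈ B) (lev (box n 1) A B) Z k).card := by
  obtain ⟨a, ha, ha1, ha2⟩ := exists_first (fun x => (x, 0) ∈ Z) (n + 1)
  obtain ⟨b, hb, hb1, hb2⟩ := exists_first (fun x => (x, 1) ∈ Z) (n + 1)
  refine ⟨a, ha, b, hb, ?_, ?_, ?_⟩
  · rw [card_two (sdiff_subset.trans (lev_sub 0))]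
    exact add_le_add (prefix_le ha (fun x hx => mem_box_iff.2 ⟨hx, by omega⟩) ha1)
      (prefix_le hb (fun x hx => mem_box_iff.2 ⟨hx, by omega⟩) hb1)
  · rw [card_two ((img_sub hZ k).trans (lev_sub k))]
    exact add_le_add (trans_le (i := 0) (j := 0) k hZ ha (by omega) ha2)
      (trans_le (i := 1) (j := 0) k hZ hb (by omega) hb2)
  · rw [card_two ((img_sub hZ k).trans (lev_sub k))]
    exact add_le_add (trans_le (i := 0) (j := 0) k hZ ha (by omega) ha2)
      (trans_le (i := 0) (j := 1) k hZ ha (by omega) ha2)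

theorem data_one {n : ℕ} {Z : Finset (ℕ × ℕ)} {A B : Set (ℕ × ℕ)} (k : ℕ)
    (hZ : Z ⊆ lev (box n 0) A B 0) :
    ∃ a ≤ n + 1,
      row 0 A a ≤ (lev (box n 0) A B 0 \ Z).card ∧
      row 0 (kfold B k) (n + 1 - a) ≤
        (img ((box n 0).filter fun x => x ∈ B) (lev (box n 0) A B) Z k).card := by
  obtain ⟨a, ha, ha1, ha2⟩ := exists_first (fun x => (x, 0) ∈ Z) (n + 1)
  refine ⟨a, ha, ?_, ?_⟩
  · rw [card_one (sdiff_subset.trans (lev_sub 0))]
    exact prefix_le ha (fun x hx => mem_box_iff.2 ⟨hx, by omega⟩) ha1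
  · rw [card_one ((img_sub hZ k).trans (lev_sub k))]
    exact trans_le (i := 0) (j := 0) k hZ ha (by omega) ha2

theorem theta_pos {j k : ℕ} (hj : 0 < j) (hk : j < k) :
    0 < (j : ℝ) / k ∧ (j : ℝ) / k < 1 := by
  have h1 : (0 : ℝ) < j := by exact_mod_cast hj
  have h2 : (j : ℝ) < k := by exact_mod_cast hk
  exact ⟨div_pos h1 (h1.trans h2), (div_lt_one (h1.trans h2)).2 h2⟩

/-- `α t ^ θ` for `t = β / α`. -/
theorem alpha_mul {α β θ : ℝ} (hα : 0 < α) (hβ : 0 < β) :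
    α * (β / α) ^ θ = α ^ (1 - θ) * β ^ θ := by
  rw [Real.div_rpow hβ.le hα.le, Real.rpow_sub hα, Real.rpow_one]
  ring

/-- One row. -/
theorem one_row {N n j k : ℕ} (hj : 0 < j) (hk : j < k) (hn : n ≤ N) (A B : Set (ℕ × ℕ))
    {α β : ℝ} (hα : 0 < α) (hβ : 0 < β) (h1 : ∀ l ≤ N + 1, α * (l : ℝ) ≤ row 0 A l)
    (h2 : ∀ l ≤ N + 1, β * (l : ℝ) ≤ row 0 (kfold B k) l) :
    α ^ (1 - (j : ℝ) / k) * β ^ ((j : ℝ) / k) * ((n : ℝ) + 1) ≤
      row 0 (msum A (kfold B j)) (n + 1) := by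
  obtain ⟨hθ0, hθ1⟩ := theta_pos hj hk
  set θ : ℝ := (j : ℝ) / k with hθ
  have ht : 0 < β / α := div_pos hβ hα
  have key := path_bound (B := (box n 0).filter fun x => x ∈ B) (k := k) (j := j) (by omega)
    hk.le hj (a₁ := (β / α) ^ (θ - 1)) (a₂ := 0) (t₁ := β / α) (t₂ := 0)
    (Real.rpow_nonneg ht.le _) le_rfl (one_slope hθ0 hθ1.le ht) _
    (lev (box n 0) A B) le_rfl (conv_lev (down_box n 0) A B) (β * ((n : ℝ) + 1)) 0 ?_ ?_
  · have e : ((lev (box n 0) A B j).card : ℝ) = row 0 (msum A (kfold B j)) (n + 1) := by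
      rw [lev, cnt_zero]
    rw [e] at key
    refine le_trans (le_of_eq ?_) key
    rw [← alpha_mul hα hβ, zero_mul, add_zero, Real.rpow_sub_one ht.ne']
    field_simp
  · intro Z hZ
    obtain ⟨a, ha, hX, hI⟩ := data_one k hZ
    have hX' : (row 0 A a : ℝ) ≤ ((lev (box n 0) A B 0 \ Z).card : ℝ) := by exact_mod_cast hX
    have hI' : (row 0 (kfold B k) (n + 1 - a) : ℝ) ≤ ((img ((box n 0).filter fun x => x ∈ B)
      (lev (box n 0) A B) Z k).card : ℝ) := by exact_mod_cast hI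
    have g1 := h1 a (by omega)
    have g2 := h2 (n + 1 - a) (by omega)
    rw [Nat.cast_sub ha] at g2
    push_cast at g2
    have g3 : β * (a : ℝ) ≤ β / α * ((lev (box n 0) A B 0 \ Z).card : ℝ) := by
      calc β * (a : ℝ) = β / α * (α * (a : ℝ)) := by field_simp
        _ ≤ _ := mul_le_mul_of_nonneg_left (g1.trans hX') ht.le
    linarith
  · intro Z _
    rw [zero_mul, zero_add]
    exact Nat.cast_nonneg _

/-- Two rows, one slope. -/
theorem two_rows_one {n j k : ℕ} (hj : 0 < j) (hk : j < k) (A B : Set (ℕ × ℕ))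
    {t c : ℝ} (ht : 0 < t) 
    (h : ∀ Z ⊆ lev (box n 1) A B 0, c ≤ t * ((lev (box n 1) A B 0 \ Z).card : ℝ) +
      ((img ((box n 1).filter fun x => x ∈ B) (lev (box n 1) A B) Z k).card : ℝ)) :
    t ^ ((j : ℝ) / k - 1) * c ≤ (row 0 (msum A (kfold B j)) (n + 1) : ℝ) +
      row 1 (msum A (kfold B j)) (n + 1) := by
  obtain ⟨hθ0, hθ1⟩ := theta_pos hj hk
  have key := path_bound (B := (box n 1).filter fun x => x ∈ B) (k := k) (j := j) (by omega)
    hk.le hj (a₁ := t ^ ((j : ℝ) / k - 1)) (a₂ := 0) (t₁ := t) (t₂ := 0)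
    (Real.rpow_nonneg ht.le _) le_rfl (one_slope hθ0 hθ1.le ht) _
    (lev (box n 1) A B) le_rfl (conv_lev (down_box n 1) A B) c 0 h ?_
  · have e : ((lev (box n 1) A B j).card : ℝ) = (row 0 (msum A (kfold B j)) (n + 1) : ℝ) +
      row 1 (msum A (kfold B j)) (n + 1) := by
      rw [lev, cnt_one]
      push_cast
      ring
    rw [e] at key
    linarith
  · intro Z _
    rw [zero_mul, zero_add]
    exact Nat.cast_nonneg _

end Pool.Agent.PlunTwo
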